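import Mathlib

/-!
# Project SPR (MP_343216_nt): definitions

Exponential sums over the powers of two modulo `n`, the distribution `nu` of sums of differences
of powers of two and its collision probability `bet`.
-/

set_option autoImplicit false

namespace Pool.Agent.Helper36.SPR

open Finset
open scoped Pointwise

/-- average of the additive character `x ↦ e(a x / n)` over `2^i`, `i < T` -/
noncomputable def mu (n T : ℕ) [NeZero n] (a : ZMod n) : ℂ :=
  (∑ i ∈ range T, ZMod.stdAddChar (a * 2 ^ i)) / T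

/-- distribution of the sum of `j` independent differences `2^i - 2^i'` with `i, i' < T`
uniform -/
noncomputable def nu (n T : ℕ) [NeZero n] : ℕ → ZMod n → ℝ
  | 0 => fun x => if x = 0 then 1 else 0
  | j + 1 => fun x =>
      (∑ i ∈ range T, ∑ i' ∈ range T, nu n T j (x - 2 ^ i + 2 ^ i')) / (T : ℝ) ^ 2

/-- collision probability `nu_j (0)` -/
noncomputable def bet (n T j : ℕ) [NeZero n] : ℝ := nu n T j 0

/-- additive quadruples `a + b = c + d` in `A` -/
def enA {G : Type} [AddCommGroup G] [DecidableEq G] (A : Finset G) : ℕ :=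
  ((A ×ˢ A) ×ˢ (A ×ˢ A)).filter (fun x => x.1.1 + x.1.2 = x.2.1 + x.2.2) |>.card

/-- multiplicative quadruples `a b = c d` in `A` -/
def enM {G : Type} [CommGroup G] [DecidableEq G] (A : Finset G) : ℕ :=
  ((A ×ˢ A) ×ˢ (A ×ˢ A)).filter (fun x => x.1.1 * x.1.2 = x.2.1 * x.2.2) |>.card

/-- `m`-fold sumset, `ks S 0 = {0}` -/
def ks {G : Type} [AddCommGroup G] [DecidableEq G] (S : Finset G) : ℕ → Finset G
  | 0 => {0}
  | m + 1 => ks S m + S

/-- the dilate `c S` -/
def dil {n : ℕ} (c : ZMod n) (S : Finset (ZMod n)) : Finset (ZMod n) := S.image (fun s => c * s)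

/-- `c` is good for `S`: the dilate `c S` is covered by `L` translates of `m S - m S` -/
def Gd {n : ℕ} (S : Finset (ZMod n)) (L : ℝ) (m : ℕ) (c : ZMod n) : Prop :=
  ∃ X : Finset (ZMod n), (X.card : ℝ) ≤ L ∧ ∀ s ∈ S, c * s ∈ X + (ks S m - ks S m)

/-- a set of units as a subset of `ZMod n` -/
def vl {n : ℕ} (S : Finset ((ZMod n)ˣ)) : Finset (ZMod n) := S.image (fun u : (ZMod n)ˣ => (u : ZMod n))

/-- pairs of elements of `S` which agree modulo `m` -/
def agr {n : ℕ} (m : ℕ) (S : Finset ((ZMod n)ˣ)) : ℕ :=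
  (S ×ˢ S).filter (fun x => (ZMod.cast (x.1 : ZMod n) : ZMod m) = ZMod.cast (x.2 : ZMod n)) |>.card

/-- the multiplicative self-convolution of `nu` -/
noncomputable def rho (n T j : ℕ) [NeZero n] (x : ZMod n) : ℝ :=
  ∑ g : ZMod n, ∑ g' : ZMod n, if g * g' = x then nu n T j g * nu n T j g' else 0

/-- probability that `n` divides `1 + 2^{v_1} + ... + 2^{v_k}`, `v_i < T` uniform -/
noncomputable def prb (n T k : ℕ) : ℝ :=
  (((Finset.univ : Finset (Fin k → Fin T)).filter
    (fun v => 1 + ∑ i, (2 : ZMod n) ^ (v i : ℕ) = 0)).card : ℝ) / (T : ℝ) ^ k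

end Pool.Agent.Helper36.SPR
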