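import Mathlib
import Pool.Agent.Helper36.SPR.Defs

/-!
# Project SPR (MP_343216_nt): module statements

THEOREM: there is `k₀` such that for all `k ≥ k₀` and all `R`, almost all odd integers with exactly
`k+1` binary ones have more than `R` distinct prime factors (so the `k`-class primes have relative
density zero).

For each `StX` the module proves `theorem hX : StX`, with the statements listed at the end of the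
docstring (and no others unless needed) as hypotheses, in that order.  `ψ = ZMod.stdAddChar`.
-/

set_option autoImplicit false

namespace Pool.Agent.Helper36.SPR

open Finset
open scoped Pointwise

/-! ### Part 1: the distribution `nu` -/

/-- NA. Positivity, total mass, Fourier transform.  Induction on `j`:
`∑_x nu_{j+1}(x) ψ(ax) = T⁻² ∑_{i,i'} ψ(a 2^i) ψ(-a 2^i') ∑_y nu_j(y) ψ(ay)` (substitute
`x = y + 2^i - 2^i'`) `= mu(a) conj(mu(a)) ∑_y nu_j(y) ψ(ay)`, as `ψ(-z) = conj ψ(z)`.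
`‖mu‖ ≤ 1` by the triangle inequality, `‖ψ(z)‖ = 1`.  Hypotheses: none. -/
def StNA : Prop := ∀ (n T : ℕ) [NeZero n], 0 < T → ∀ j : ℕ,
  (∀ x, 0 ≤ nu n T j x) ∧ ∑ x, nu n T j x = 1 ∧
  (∀ a : ZMod n, ∑ x, (nu n T j x : ℂ) * ZMod.stdAddChar (a * x)
    = ((‖mu n T a‖ ^ (2 * j) : ℝ) : ℂ)) ∧
  (∀ a : ZMod n, ‖mu n T a‖ ≤ 1)

/-- NB. Inversion and consequences.  Orthogonality (`AddChar.sum_mulShift`,
`ZMod.isPrimitive_stdAddChar`): `nu_j(x) = n⁻¹ ∑_a ‖mu a‖^(2j) ψ(-ax)`; so `bet = n⁻¹ ∑_a ‖mu a‖^(2j)`,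
`nu_j(x) = |nu_j(x)| ≤ bet`, Parseval gives `∑ nu_j² = n⁻¹ ∑ ‖mu‖^(4j)`, and `‖mu‖ ≤ 1` gives
monotonicity.  Hypotheses: hNA. -/
def StNB : Prop := ∀ (n T : ℕ) [NeZero n], 0 < T → ∀ j : ℕ,
  (∀ x : ZMod n, (nu n T j x : ℂ)
    = (∑ a : ZMod n, ((‖mu n T a‖ ^ (2 * j) : ℝ) : ℂ) * ZMod.stdAddChar (-(a * x))) / n) ∧
  bet n T j = (∑ a : ZMod n, ‖mu n T a‖ ^ (2 * j)) / n ∧
  0 ≤ bet n T j ∧ (1 : ℝ) / n ≤ bet n T j ∧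
  (∀ x, nu n T j x ≤ bet n T j) ∧
  ∑ x, nu n T j x ^ 2 = bet n T (2 * j) ∧
  (∀ j' : ℕ, j ≤ j' → bet n T j' ≤ bet n T j)

/-- NP. Projection to a divisor `m ∣ n`: the image of `nu` is `nu`.  Induction on `j`
(`ZMod.cast` is a ring homomorphism `ZMod.castHom`; the translation `x ↦ x - 2^i + 2^i'` of `ZMod n`
maps the fibre over `u` to the fibre over `u - 2^i + 2^i'`).  Second part: `bet n T j` is one term of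
the sum over the fibre of `0`, all terms are nonnegative (NA).  Hypotheses: hNA. -/
def StNP : Prop := ∀ (m n T : ℕ) [NeZero m] [NeZero n], m ∣ n → 0 < T → ∀ j : ℕ,
  (∀ u : ZMod m, ∑ x ∈ (univ : Finset (ZMod n)).filter (fun x => (ZMod.cast x : ZMod m) = u),
    nu n T j x = nu m T j u) ∧
  bet n T j ≤ bet m T j

/-- OR. `bet_1 = T⁻² #{(i,i') : 2^i = 2^i'} = 1 / ord(2)`: for each `i < T` the number of `i' < T`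
with `2^i' = 2^i` is `T / ord(2)`, because `ord(2) ∣ T` and `2^i = 2^i'` iff `i ≡ i'` modulo the order
(`pow_inj_mod` or `pow_eq_pow_iff_modEq`, in the unit group or for `IsOfFinOrder`;
`Nat.count_modEq_card`).  Hypotheses: none. -/
def StOR : Prop := ∀ (n T : ℕ) [NeZero n], 0 < T → (2 : ZMod n) ^ T = 1 →
  bet n T 1 = 1 / (orderOf (2 : ZMod n) : ℝ)

/-- PR. Let `E` be the average over `i < T`.  As `2^T = 1`, `i ↦ i + i'' mod T` shows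
`E_i F(2^i 2^i'') = E_i F(2^i)`, hence `mu(2^i'' c) = mu(c)`.
Claim: `E_{i,i'} mu(a(2^i - 2^i')) = ‖mu(a)‖²` (write `mu(c) = E_{i''} ψ(c 2^i'')`, for fixed `i''`
shift `i`, `i'`).  Jensen for `t^(2j)` (`inner_le_nnorm...` not needed; `Real.pow_arith_mean_le_arith_mean_pow`
or `inner`): `E_{i,i'} ‖mu(a(2^i - 2^i'))‖^(2j) ≥ (E ‖mu(..)‖)^(2j) ≥ ‖mu(a)‖^(4j)`.
By NA the left side is `E_{i,i'} ∑_g nu_j(g) ψ(a g (2^i - 2^i')) = ∑_g nu_j(g) ‖mu(a g)‖²`.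
Jensen for `t^j` with the weights `nu_j(g)`: `∑_g nu_j(g) ‖mu(ag)‖^(2j) ≥
(∑_g nu_j(g) ‖mu(ag)‖²)^j ≥ (‖mu(a)‖^(4j))^j`.  Hypotheses: hNA. -/
def StPR : Prop := ∀ (n T : ℕ) [NeZero n], 0 < T → (2 : ZMod n) ^ T = 1 → ∀ j : ℕ, 1 ≤ j →
  ∀ a : ZMod n, ‖mu n T a‖ ^ (4 * j ^ 2) ≤ ∑ g, nu n T j g * ‖mu n T (a * g)‖ ^ (2 * j)

/-- PS. `∑_x rho(x) ψ(ax) = ∑_{g,g'} nu(g) nu(g') ψ(a g g') = ∑_g nu(g) ‖mu(ag)‖^(2j)`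
(NA), a real number `≥ ‖mu(a)‖^(4j²)` (PR).  Parseval: `∑ rho² = n⁻¹ ∑_a |rho^(a)|² ≥
n⁻¹ ∑_a ‖mu a‖^(8j²) = bet (4j²)` (NB).  Hypotheses: hNA hNB hPR. -/
def StPS : Prop := ∀ (n T : ℕ) [NeZero n], 0 < T → (2 : ZMod n) ^ T = 1 → ∀ j : ℕ, 1 ≤ j →
  bet n T (4 * j ^ 2) ≤ ∑ x, rho n T j x ^ 2

/-- BI. For a unit `a`: `‖mu(a)‖^(4j²) ≤ ∑_g nu_j(g) ‖mu(ag)‖^(2j) ≤ (∑ nu_j²)^(1/2)
(∑_g ‖mu(ag)‖^(4j))^(1/2) = (bet(2j))^(1/2) (n bet(2j))^(1/2) = √n bet(2j) ≤ √n bet(j)`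
(`g ↦ a g` is a bijection).  Hypotheses: hNB hPR. -/
def StBI : Prop := ∀ (n T : ℕ) [NeZero n], 0 < T → (2 : ZMod n) ^ T = 1 → ∀ j : ℕ, 1 ≤ j →
  ∀ a : ZMod n, IsUnit a → ‖mu n T a‖ ^ (4 * j ^ 2) ≤ Real.sqrt n * bet n T j

/-- AE. `∑_{x∈A} nu_j(x) = n⁻¹ ∑_a w(a) conj(G(a))`, `w(a) = ‖mu a‖^(2j) ∈ [0,1]`,
`G(a) = ∑_{x∈A} ψ(ax)`, so it is at most `n⁻¹ ∑ w |G|`.  Cauchy-Schwarz twice:
`(n⁻¹ ∑ w|G|)² ≤ bet · Z`, `Z = n⁻¹ ∑ w|G|²`, `Z² ≤ (n⁻¹ ∑ w²)(n⁻¹ ∑ |G|⁴) ≤ bet · enA A` (`w² ≤ w`;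
`n⁻¹ ∑_a |G(a)|⁴` counts the quadruples `x1 + x2 = x3 + x4`).  Hypotheses: hNB hNA. -/
def StAE : Prop := ∀ (n T : ℕ) [NeZero n], 0 < T → ∀ (j : ℕ) (A : Finset (ZMod n)),
  (∑ x ∈ A, nu n T j x) ^ 4 ≤ bet n T j ^ 3 * enA A

/-! ### Part 2: combinatorics in commutative groups and rings -/

/-- BA. Balog-Szemeredi-Gowers (additive).  `r(d) = #{(a,b) ∈ A² : a - b = d} = #A_d`,
`A_d = A ∩ (A + d)`; `enA A = ∑_d r(d)² ≥ |A|³/K`.  Call `t` popular if `r(t) ≥ η|A|`,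
`η = 1/(16K)`.  For a pair `(a,b) ∈ A²` the number of `d` with `a, b ∈ A_d` is `r(a-b)`, so
`∑_d #{(a,b) ∈ A_d² : a-b unpopular} = ∑_{t unpopular} r(t)² ≤ η|A|³`.  Hence
`∑_d (|A_d|² - 8 unpop_d) ≥ |A|³/K - 8η|A|³ = |A|³/(2K)`; the `d` with `|A_d| < |A|/(4K)` contribute
at most `(|A|/4K) ∑_d |A_d| = |A|³/(4K)`.  So some `d` has `|A_d| ≥ |A|/(4K)` and
`8 unpop_d < |A_d|²`.  Let `S0 = A_d`, `bad(a) = #{b ∈ S0 : a-b unpopular}`,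
`S = {a ∈ S0 : bad(a) < |S0|/4}`: `|S| ≥ |S0|/2 ≥ |A|/(8K)`.  For `a, a' ∈ S` at least `|S0|/2` elements
`b ∈ S0` have `a-b`, `a'-b` popular, hence `t = a-a' = (a-b)-(a'-b)` has at least
`(|S0|/2)(η|A|)²` representations `t = (x1-y1)-(x2-y2)` in `A⁴`; so `|S-S| (|S0|/2) η²|A|² ≤ |A|⁴` and
`|S-S| ≤ 2|A|²/(η²|S0|) ≤ 2048 K³ |A| ≤ 2^14 K⁴ |S|`.  Hypotheses: none. -/
def StBA : Prop := ∀ (G : Type) [AddCommGroup G] [DecidableEq G] (A : Finset G) (K : ℝ),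
  A.Nonempty → 1 ≤ K → (A.card : ℝ) ^ 3 ≤ K * enA A →
  ∃ S ⊆ A, (A.card : ℝ) ≤ 8 * K * S.card ∧ ((S - S).card : ℝ) ≤ 2 ^ 14 * K ^ 4 * S.card

/-- BM. The same in multiplicative form (same proof, or transfer BA through `Additive G`).
Hypotheses: hBA. -/
def StBM : Prop := ∀ (G : Type) [CommGroup G] [DecidableEq G] (A : Finset G) (K : ℝ),
  A.Nonempty → 1 ≤ K → (A.card : ℝ) ^ 3 ≤ K * enM A →
  ∃ S ⊆ A, (A.card : ℝ) ≤ 8 * K * S.card ∧ ((S / S).card : ℝ) ≤ 2 ^ 14 * K ^ 4 * S.card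

/-- LV. Level set.  `rho(x) = ∑_{gg'=x} f(g) f(g')`, `eta = ∑_{x not a unit} f(x)`.  For nonunits `x`:
`∑ rho(x)² ≤ (∑ rho(x))² ≤ (2 eta)²` (if `gg'` is not a unit, `g` or `g'` is not), so
`∑_{x unit} rho(x)² ≥ b/K - 4 eta² ≥ b/(2K)`.  For a unit `x` only unit pairs occur; split
`f = f1 + f2` on the units, `f2` supported on `A = {f ≥ b/(32K)}`: `rho = P + Q` on the units,
`P = f2 × f2`, `Q = f1 × f + f2 × f1`, and `∑ (f1 × g)² ≤ ∑ f1² (∑ g)²` (Cauchy-Schwarz with the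
weights `g`, `g = f` or `f2`), `∑ f1² ≤ b/(32K)`, so `∑ Q² ≤ 2·2·b/(32K) = b/(8K)` and
`2 ∑ P² ≥ ∑ rho² - 2 ∑ Q² ≥ b/(4K)`.  `∑ P² ≤ b⁴ enM A`.  Hence `b/(8K) ≤ b⁴ enM A`.  And
`|A| b/(32K) ≤ ∑ f = 1`.  Hypotheses: none. -/
def StLV : Prop := ∀ (n : ℕ) [NeZero n] (f : ZMod n → ℝ) (b K : ℝ),
  (∀ x, 0 ≤ f x) → (∀ x, f x ≤ b) → ∑ x, f x = 1 → 0 < b → 1 ≤ K →
  b / K ≤ ∑ x : ZMod n, (∑ g : ZMod n, ∑ g' : ZMod n, if g * g' = x then f g * f g' else 0) ^ 2 →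
  4 * (∑ x : ZMod n, if IsUnit x then 0 else f x) ^ 2 ≤ b / (2 * K) →
  ∀ A : Finset ((ZMod n)ˣ), (∀ u, u ∈ A ↔ b / (32 * K) ≤ f (u : ZMod n)) →
    1 ≤ 8 * K * b ^ 3 * enM A ∧ (A.card : ℝ) * b ≤ 32 * K

/-- ST. Structure.  Put `b = bet j`, `f = nu_j`.  PS: `∑ rho² ≥ bet(4j²) ≥ b/K`, so LV gives `A` with
`enM A ≥ 1/(8K b³)`, `|A| ≤ 32K/b`, hence `|A|³ ≤ 2^18 K⁴ enM A` and (`enM A ≤ |A|³`)
`|A| ≥ 1/(2Kb)`.  BM: `A1 ⊆ A`, `|A| ≤ 2^21 K⁴ |A1|`, `|A1/A1| ≤ 2^86 K^16 |A1|`; so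
`|A1| ≥ 1/(2^22 K⁵ b)`.  AE for `vl A1`: `enA(vl A1) ≥ (|A1| b/(32K))⁴ / b³ ≥ |A1|³/(2^42 K⁹)`.
BA with `2^42 K⁹`: `S' ⊆ vl A1`, `|A1| ≤ 2^45 K⁹ |S'|`, `|S'-S'| ≤ 2^182 K^36 |S'|`; `S` = the set of units
with `vl S = S'`; `|S/S| ≤ |A1/A1| ≤ 2^131 K^25 |S|`, `|S| ≥ 1/(2^67 K^14 b)`, `|S| b ≤ 32K`.
Use `2 ≤ K` to absorb the powers of two.  Hypotheses: hNA hNB hPS hBA hBM hAE hLV. -/
def StST : Prop := ∀ (n T : ℕ) [NeZero n], 0 < T → (2 : ZMod n) ^ T = 1 → ∀ (j : ℕ) (K : ℝ),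
  1 ≤ j → 2 ≤ K → bet n T j ≤ K * bet n T (4 * j ^ 2) →
  4 * (∑ x : ZMod n, if IsUnit x then 0 else nu n T j x) ^ 2 ≤ bet n T j / (2 * K) →
  ∃ S : Finset ((ZMod n)ˣ), S.Nonempty ∧
    ((vl S - vl S).card : ℝ) ≤ K ^ 218 * S.card ∧ ((S / S).card : ℝ) ≤ K ^ 218 * S.card ∧
    1 ≤ K ^ 81 * bet n T j * S.card ∧ (S.card : ℝ) * bet n T j ≤ K ^ 6 ∧
    ∀ u ∈ S, bet n T j ≤ 32 * K * nu n T j (u : ZMod n)

/-- PL. Plünnecke-Ruzsa for `ks` (`Finset.pluennecke_ruzsa_inequality_nsmul_sub_nsmul_sub` with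
`A = B = S`; `ks S m` is the `m`-fold sumset `m • S`; beware of the two meanings of `m • S`).
Hypotheses: none. -/
def StPL : Prop := ∀ (G : Type) [AddCommGroup G] [DecidableEq G] (S : Finset G) (M : ℝ),
  S.Nonempty → ((S - S).card : ℝ) ≤ M * S.card →
  ∀ m m' : ℕ, ((ks S m - ks S m').card : ℝ) ≤ M ^ (m + m') * S.card

/-- GC. Good elements.  (a) `(c ± c') s ∈ X + mS - mS ± (X' + m'S - m'S)`.  (b) `c' c s ∈ c' X +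
(m terms c' s_i) - (m terms c' s'_i)`, and every `c' s_i ∈ X' + m'S - m'S`; the set
`c' X + ks X' m - ks X' m` has at most `L L'^(2m)` elements.
(c) `S + c S ⊆ X + ks S (m+1) - ks S m`, PL.  (d) for a unit `b`, `a = ξ b`:
`|S + ξ S| = |bS + aS|` (multiply by `b`) and `bS + aS ⊆ X + X' + ks S (m+m') - ks S (m+m')`.
Useful lemmas: `ks S m + ks S m' = ks S (m+m')`, `card_add_le`.  Hypotheses: hPL. -/
def StGC : Prop := ∀ (n : ℕ) [NeZero n] (S : Finset (ZMod n)), S.Nonempty →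
  (∀ (L L' : ℝ) (m m' : ℕ) (c c' : ZMod n), Gd S L m c → Gd S L' m' c' →
    Gd S (L * L') (m + m') (c + c') ∧ Gd S (L * L') (m + m') (c - c') ∧
    Gd S (L * L' ^ (2 * m)) (2 * m * m') (c' * c)) ∧
  (∀ M : ℝ, ((S - S).card : ℝ) ≤ M * S.card →
    (∀ (L : ℝ) (m : ℕ) (c : ZMod n), Gd S L m c →
      ((S + dil c S).card : ℝ) ≤ L * M ^ (2 * m + 1) * S.card) ∧
    (∀ (L L' : ℝ) (m m' : ℕ) (a b ξ : ZMod n), IsUnit b → a = ξ * b → Gd S L m a → Gd S L' m' b →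
      ((S + dil ξ S).card : ℝ) ≤ L * L' * M ^ (2 * (m + m')) * S.card))

/-- RT. Popular ratios.  `∑_{c ∈ S/S} #(S ∩ cS) = |S|²`; `B = {c ∈ S/S : |S| ≤ 2M #(S ∩ cS)}`.  The other
`c` contribute at most `|S/S| |S|/(2M) ≤ |S|²/2`, each `c ∈ B` at most `|S|`: `|B| ≥ |S|/2`.
For `c ∈ B` let `U = vl(S ∩ cS)`: Ruzsa's triangle inequality
(`Finset.ruzsa_triangle_inequality_sub_sub_sub`): `|S - cS| |U| ≤ |S - U| |U - cS| ≤ (M|S|)²`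
(`U ⊆ S`, `U ⊆ cS`, `|cS - cS| = |S - S|`), so `|S - cS| ≤ 2M³|S|`; Ruzsa covering
(`Finset.ruzsa_covering_add` for `A = cS`, `B = -S`) gives `cS ⊆ X + (S - S)`, `|X| ≤ 2M³`, and
`ks S 1 = S`.  Hypotheses: none. -/
def StRT : Prop := ∀ (n : ℕ) [NeZero n] (S : Finset ((ZMod n)ˣ)) (M : ℝ), S.Nonempty →
  ((vl S - vl S).card : ℝ) ≤ M * S.card → ((S / S).card : ℝ) ≤ M * S.card →
  ∃ B : Finset ((ZMod n)ˣ), (S.card : ℝ) ≤ 2 * B.card ∧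
    (∀ c ∈ B, (S.card : ℝ) ≤ 2 * M * (S.filter (fun s => c * s ∈ S)).card) ∧
    ∀ c ∈ B, Gd (vl S) (2 * M ^ 3) 1 (c : ZMod n)

/-- PV. Pivot.  `P(ξ)`: there are `a, b ∈ B - B`, `b` a unit, `a = ξ b`.  `P(0)` holds (`a = 0`,
`b` any nonzero difference).  If some `P(ξ)` fails, there is a natural number `m ≥ 1` with
`P(m-1)`, not `P(m)` (every element of `ZMod n` is a natural number).  With `ξ = m-1`,
`a = ξ b`: `(u,v) ↦ b u + (a+b) v` is injective on `B × B`: otherwise `u - u' = (ξ+1)(v' - v)` with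
`v ≠ v'`, so `v' - v` is a unit and `P(ξ+1)` holds.  Hypotheses: none. -/
def StPV : Prop := ∀ (n : ℕ) [NeZero n] (B : Finset (ZMod n)), 2 ≤ B.card →
  (∀ x ∈ B, ∀ y ∈ B, x ≠ y → IsUnit (x - y)) →
  (∀ ξ : ZMod n, ∃ a ∈ B - B, ∃ b ∈ B - B, IsUnit b ∧ a = ξ * b) ∨
  (∃ a ∈ B - B, ∃ b ∈ B - B, IsUnit b ∧ B.card * B.card ≤ (dil b B + dil (a + b) B).card)

/-- CP. Count, `p` prime.  For `c ∈ D`: by Cauchy-Schwarz the number of quadruples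
`s1 + c s3 = s2 + c s4` in `S` is at least `|S|⁴/|S + cS| ≥ |S|³/L`.  Sum over `c ∈ D`: quadruples with
`s3 = s4` (then `s1 = s2`): `|S|² |D|`; if `s3 ≠ s4` then `c` is determined: at most `|S|⁴`.
So `|D| (|S|³/L - |S|²) ≤ |S|⁴`, and `2L ≤ |S|`.  Hypotheses: none. -/
def StCP : Prop := ∀ (p : ℕ) [NeZero p] (S : Finset (ZMod p)) (L : ℝ), p.Prime → 0 < L →
  2 * L ≤ S.card → ∀ D : Finset (ZMod p), (∀ c ∈ D, ((S + dil c S).card : ℝ) ≤ L * S.card) →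
  (D.card : ℝ) ≤ 2 * L * S.card

/-- SP. Sum-product, `p` prime.  Let `L0 = 2M³ ≤ M⁴`, `B` from RT (`|B| ≥ |S|/2`, all `c ∈ B` are
`Gd(L0,1)`).  If `|B| < 2` then `|S| ≤ 4`.  PV for `vl B`.  By GC: elements of `B - B` are `Gd(L0²,2)`.
Case 2: `a, b ∈ B - B`: `b β` (`β ∈ B`) is `Gd(L0⁶,4)`, `a + b` is `Gd(L0⁴,4)`, `(a+b)β'` is `Gd(L0^12,8)`,
`bβ + (a+b)β'` is `Gd(L0^18,12)`; so all elements `c` of `bB + (a+b)B` have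
`|S + cS| ≤ L0^18 M^25 |S| ≤ M^97 |S|`.  CP (`L = M^97`; if `|S| < 2M^97` we are done):
`|B|² ≤ 2M^97|S|`, so `|S| ≤ 8 M^97 ≤ M^100`.  Case 1: every `ξ` is a ratio, `|S + ξS| ≤ L0⁴ M⁸|S| ≤
M^24|S|`, so CP gives `p ≤ 2 M^97 |S|`.  Hypotheses: hGC hRT hPV hCP. -/
def StSP : Prop := ∀ (p : ℕ) [NeZero p] (S : Finset ((ZMod p)ˣ)) (M : ℝ), p.Prime → S.Nonempty →
  2 ≤ M → ((vl S - vl S).card : ℝ) ≤ M * S.card → ((S / S).card : ℝ) ≤ M * S.card →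
  (S.card : ℝ) ≤ M ^ 100 ∨ (p : ℝ) ≤ M ^ 100 * S.card

/-- FB. Fibres.  For `c ∈ B` with `c ≡ v` modulo `m`: the pairs `(s, c s)`, `s, cs ∈ S`; they are
different for different `c`, and all are pairs `(s, s')` with `s' ≡ v s` modulo `m`.  Their number is
`∑_u N(u) N(vu) ≤ ∑ N(u)² = agr m S`, `N(u) = #{s ∈ S : s ≡ u}` (`v` is the image of a unit, so
`u ↦ vu` is injective; Cauchy-Schwarz or `2xy ≤ x²+y²`).  So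
`#fibre · |S|/(2M) ≤ agr m S ≤ M|S|`.  Hypotheses: none. -/
def StFB : Prop := ∀ (m n : ℕ) [NeZero m] [NeZero n] (S B : Finset ((ZMod n)ˣ)) (M : ℝ), m ∣ n →
  S.Nonempty → (∀ c ∈ B, (S.card : ℝ) ≤ 2 * M * (S.filter (fun s => c * s ∈ S)).card) →
  (agr m S : ℝ) ≤ M * S.card → ∀ v : ZMod m,
  ((B.filter (fun c : (ZMod n)ˣ => (ZMod.cast (c : ZMod n) : ZMod m) = v)).card : ℝ) ≤ 2 * M ^ 2

/-- DB. `d ≡ 0` modulo one prime and not modulo the other: choose representatives `b_v` of the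
classes of `B` modulo the first prime and `b'_u` modulo the second one; the elements
`d b'_u + b_v` are pairwise different (the first coordinate gives `v`, then the second one gives `u`).
Hypotheses: none. -/
def StDB : Prop := ∀ (p q : ℕ) [NeZero p] [NeZero q], p.Prime → q.Prime → p ≠ q →
  ∀ (B : Finset (ZMod (p * q))) (d : ZMod (p * q)), d ≠ 0 → ¬ IsUnit d →
  (B.image (fun x => (ZMod.cast x : ZMod p))).card * (B.image (fun x => (ZMod.cast x : ZMod q))).card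
    ≤ (dil d B + B).card

/-- CQ. Count, modulus `pq`.  As in CP, `|D||S|³/L ≤ #{(s1,s2,s3,s4,c) : s1 + c s3 = s2 + c s4}`.
`s3 = s4`: `|S|²|D|`.  `s4 - s3` a unit: `≤ |S|⁴`.  `s4 - s3 ≡ 0` modulo `q` only: then `s1 ≡ s2` modulo `q`
and `c` is determined modulo `p`, `q` choices for `c`: at most `q (agr q S)² ≤ (M·M|S|)(M|S|)²`.  The
same with `p`: at most `p (agr p S)² ≤ (M|S|)(M|S|)²`.  So `|D| |S|³/(2L) ≤ |S|⁴ + 2M⁴|S|³` and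
`|D| ≤ 2L(|S| + 2M⁴) ≤ 4L|S|`.  Hypotheses: none. -/
def StCQ : Prop := ∀ (p q : ℕ) [NeZero p] [NeZero q], p.Prime → q.Prime → p < q →
  ∀ (S : Finset ((ZMod (p * q))ˣ)) (L M : ℝ), 0 < L → 1 ≤ M → 2 * L ≤ S.card →
  2 * M ^ 4 ≤ S.card → (agr p S : ℝ) ≤ M * S.card → (agr q S : ℝ) ≤ M * S.card →
  (p : ℝ) ≤ M * S.card → (q : ℝ) ≤ M * p →
  ∀ D : Finset (ZMod (p * q)), (∀ c ∈ D, ((vl S + dil c (vl S)).card : ℝ) ≤ L * S.card) →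
  (D.card : ℝ) ≤ 4 * L * S.card

/-- SQ. Sum-product, modulus `pq`.  `L0`, `B` as in SP.  If `|S| < 2M^97` then `p ≤ M|S| ≤ M^99`.
Otherwise CQ with `L = M^97`: the set `D` of all `c` with `|S + cS| ≤ M^97|S|` has at most
`4M^97|S| ≤ M^99|S| ≤ M^100 p` elements.
(ii) If some difference `d = b - b'` of elements of `B` is nonzero and not a unit: all elements
`d β + β'` are `Gd(L0⁷,5)`, so they lie in `D`, and by DB `|π_p(B)||π_q(B)| ≤ |D|`; by FB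
`|π_p(B)|, |π_q(B)| ≥ |B|/(2M²) ≥ |S|/(4M²) ≥ p/(4M³)`.  So `p² ≤ 16M⁶·M^100 p`, `p ≤ M^110`.
Otherwise PV: case 2 as in SP: `|B|² ≤ |D| ≤ M^99|S|`, `|S| ≤ 4M^99`, `p ≤ M^102`; case 1 with `ξ = p`
(nonzero, not a unit) gives a nonzero difference `a = ξ b` of `B` which is not a unit:
contradiction.  Hypotheses: hGC hRT hPV hFB hDB hCQ. -/
def StSQ : Prop := ∀ (p q : ℕ) [NeZero p] [NeZero q], p.Prime → q.Prime → p < q →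
  ∀ (S : Finset ((ZMod (p * q))ˣ)) (M : ℝ), S.Nonempty → 2 ≤ M →
  ((vl S - vl S).card : ℝ) ≤ M * S.card → ((S / S).card : ℝ) ≤ M * S.card →
  (agr p S : ℝ) ≤ M * S.card → (agr q S : ℝ) ≤ M * S.card → (p : ℝ) ≤ M * S.card →
  (S.card : ℝ) ≤ M * p → (q : ℝ) ≤ M * p → (p : ℝ) ≤ M ^ 110

/-! ### Part 3: flattening and exponential sums -/

/-- FP. `p` prime: the only nonunit is `0`, `eta = nu_j(0) = b := bet j`.  If `4b² > b/(2K)` then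
`b > 1/(8K) ≥ K^(-4)`.  Otherwise ST gives `S`, SP with `M = K^218`: either
`1/b ≤ K^81 |S| ≤ K^(81+21800)`, or `p ≤ K^21800 |S| ≤ K^21806/b`.
Hypotheses: hNB hST hSP. -/
def StFP : Prop := ∀ (p T j : ℕ) [NeZero p] (K : ℝ), p.Prime → 0 < T → (2 : ZMod p) ^ T = 1 →
  1 ≤ j → 2 ≤ K → bet p T j ≤ K * bet p T (4 * j ^ 2) →
  1 ≤ K ^ 22000 * bet p T j ∨ (p : ℝ) * bet p T j ≤ K ^ 22000

/-- FQ. `b = bet_{pq}(j)`: `2/(Kp) ≤ bet(4j²) ≤ b ≤ bet_q(j) ≤ 2/q ≤ 2/p` (NB, NP), so `b ≤ K bet(4j²)`.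
`eta ≤ bet_p(j) + bet_q(j) ≤ 4/p` (a nonunit is `0` modulo `p` or modulo `q`; NP).  If
`4·16/p² > b/(2K) ≥ 1/(K²p)` then `p < 64K² ≤ K^8`.  Otherwise ST gives `S` with
`|S| ≥ K^(-81)/b ≥ K^(-82) p`, `|S| ≤ K⁶/b ≤ K⁷ p`.  `agr q S`: with `nu_j ≥ b/(32K)` on `S`,
`(b/(32K))² agr q S ≤ ∑_{s ≡ s' (q)} nu(s) nu(s') ≤ ∑_{u mod q} nu_q(u)² = bet_q(2j) ≤ 2/q ≤ 2/p`, so
`agr q S ≤ (32K)²(Kp/2)²·2/p = 2⁹K⁴p ≤ K^13 p ≤ K^95|S|`; the same for `agr p S`.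
SQ with `M = K^218`: `p ≤ K^23980`.  Hypotheses: hNA hNB hNP hST hSQ. -/
def StFQ : Prop := ∀ (p q T j : ℕ) [NeZero p] [NeZero q] (K : ℝ), p.Prime → q.Prime → p < q →
  0 < T → (2 : ZMod (p * q)) ^ T = 1 → 1 ≤ j → 2 ≤ K → (q : ℝ) ≤ K * p →
  bet p T j ≤ 2 / p → bet q T j ≤ 2 / q → 2 / (K * p) ≤ bet (p * q) T (4 * j ^ 2) →
  (p : ℝ) ≤ K ^ 24000

/-- EP. Exponential sums, `p` prime.  `K = p^(1/88000)`, `K^22000 = p^(1/4)`, `p₀ = 2^88000`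
(never evaluate it).  `j_0 = 1`, `j_{i+1} = 4 j_i²`, `b_i = bet(j_i)`, `b_0 = 1/ord ≤ p^(-1/3)` (OR), `b_i` is
decreasing.  If `b_i > p^(-3/4)` then both alternatives of FP fail (`K^22000 b_i ≤ p^(1/4-1/3) < 1`,
`p b_i > p^(1/4)`), so `b_{i+1} < b_i/K`.  After `I = 36667` steps (`36667/88000 ≥ 5/12`) `b_I ≤ p^(-3/4)`.
BI with `J = j_I` (an absolute constant): `‖mu a‖^(4J²) ≤ p^(1/2-3/4)`, so `eps = 1/(16J²)`.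
Hypotheses: hNB hOR hBI hFP. -/
def StEP : Prop := ∃ ε : ℝ, 0 < ε ∧ ∃ p₀ : ℕ, ∀ (p T : ℕ) [NeZero p], p₀ ≤ p → p.Prime → 0 < T →
  (2 : ZMod p) ^ T = 1 → (p : ℝ) ^ (1 / 3 : ℝ) ≤ orderOf (2 : ZMod p) →
  ∀ a : ZMod p, a ≠ 0 → ‖mu p T a‖ ≤ (p : ℝ) ^ (-ε)

/-- EQ. Exponential sums, modulus `pq`.  Let `ε₁` be from EP and `j = ⌈1/(2ε₁)⌉ ≥ 1`:
`bet_p(j) = p⁻¹ ∑ ‖mu‖^(2j) ≤ p⁻¹(1 + p·p⁻¹) = 2/p`, same for `q`.  `κ = 1/24001`.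
Case `q ≤ p^(1+κ)`: `K = p^κ`; if `bet_{pq}(4j²) ≥ 2/(Kp)` then FQ gives `p ≤ K^24000 < p`.  So
`bet_{pq}(4j²) < 2p^(-1-κ)` and BI (with `J = 4j²`) gives `‖mu a‖^(4J²) ≤ √(pq)·2p^(-1-κ) ≤ 2p^(-κ/2) ≤
p^(-κ/4) ≤ q^(-κ/8)` (`p ≥ 2^(4/κ)`).
Case `q > p^(1+κ)`: `bet_{pq}(j) ≤ bet_q(j) ≤ 2/q`, BI (with `j`): `‖mu a‖^(4j²) ≤ √(pq)·2/q = 2√(p/q) ≤
2q^(-κ/(2(1+κ))) ≤ 2q^(-κ/4) ≤ q^(-κ/8)` (`q ≥ 2^(8/κ)`).  So `ε = κ/(32J²)` works in both cases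
(`‖mu‖ ≤ 1`).  Note `(2 : ZMod p)^T = 1` follows from the same modulo `pq`.
Hypotheses: hNA hNB hNP hBI hFQ hEP. -/
def StEQ : Prop := ∃ ε : ℝ, 0 < ε ∧ ∃ p₀ : ℕ, ∀ (p q T : ℕ) [NeZero p] [NeZero q], p₀ ≤ p →
  p.Prime → q.Prime → p < q → 0 < T → (2 : ZMod (p * q)) ^ T = 1 →
  (p : ℝ) ^ (1 / 3 : ℝ) ≤ orderOf (2 : ZMod p) → (q : ℝ) ^ (1 / 3 : ℝ) ≤ orderOf (2 : ZMod q) →
  ∀ a : ZMod (p * q), IsUnit a → ‖mu (p * q) T a‖ ≤ (q : ℝ) ^ (-ε)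

/-- MC. `e(q x 2^i/(pq)) = e(x 2^i/p)` (`ZMod.stdAddChar_coe` or `ZMod.toCircle`).
Hypotheses: none. -/
def StMC : Prop := ∀ (p q T x : ℕ) [NeZero p] [NeZero q],
  mu (p * q) T ((q * x : ℕ) : ZMod (p * q)) = mu p T ((x : ℕ) : ZMod p) ∧
  mu (p * q) T ((p * x : ℕ) : ZMod (p * q)) = mu q T ((x : ℕ) : ZMod q)

/-- PF. Orthogonality: `1_{y = 0} = n⁻¹ ∑_a ψ(a y)`, `y = 1 + ∑ 2^{v_i}`, and
`∑_v ∏_i ψ(a 2^{v_i}) = (T mu(a))^k` (`Finset.prod_univ_sum`, `Fintype.piFinset`, or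
`Finset.sum_pow'`).  The term `a = 0` is `1/n`.  Hypotheses: none. -/
def StPF : Prop := ∀ (n T k : ℕ) [NeZero n], 0 < T →
  (prb n T k : ℂ) = (∑ a : ZMod n, ZMod.stdAddChar a * mu n T a ^ k) / n ∧
  |prb n T k - 1 / n| ≤ (∑ a : ZMod n, if a = 0 then 0 else ‖mu n T a‖ ^ k) / n

/-- PA. `|prb - 1/p| ≤ p⁻¹ (p-1) p^(-εk) ≤ p^(-2)` if `εk ≥ 2`.  Hypotheses: hPF hEP. -/
def StPA : Prop := ∃ k₀ p₀ : ℕ, ∀ (p T k : ℕ) [NeZero p], k₀ ≤ k → p₀ ≤ p → p.Prime → 0 < T →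
  (2 : ZMod p) ^ T = 1 → (p : ℝ) ^ (1 / 3 : ℝ) ≤ orderOf (2 : ZMod p) →
  |prb p T k - 1 / p| ≤ 1 / (p : ℝ) ^ 2

/-- PB. The nonzero nonunits of `ZMod (pq)` are `q x` (`1 ≤ x < p`) and `p x` (`1 ≤ x < q`); MC and EP:
`pq |prb - 1/(pq)| ≤ p·p^(-ε₁k) + q·q^(-ε₁k) + pq·q^(-ε₂k) ≤ 1/p + 1/q + 1/q ≤ 3/p` if `ε₁k ≥ 2`,
`ε₂k ≥ 3`.  Hypotheses: hPF hMC hEP hEQ. -/
def StPB : Prop := ∃ k₀ p₀ : ℕ, ∀ (p q T k : ℕ) [NeZero p] [NeZero q], k₀ ≤ k → p₀ ≤ p →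
  p.Prime → q.Prime → p < q → 0 < T → (2 : ZMod (p * q)) ^ T = 1 →
  (p : ℝ) ^ (1 / 3 : ℝ) ≤ orderOf (2 : ZMod p) → (q : ℝ) ^ (1 / 3 : ℝ) ≤ orderOf (2 : ZMod q) →
  prb (p * q) T k ≤ 1 / ((p : ℝ) * q) * (1 + 3 / p)

/-! ### Part 4: counting -/

/-- ND. Let `Q` be the set of odd primes `p` with `ord_p(2) < p^(1/3)`.  Every `p ∈ Q`, `p ≤ 2^(i+1)`, divides
`∏_{1 ≤ t ≤ 2^((i+1)/3)} (2^t - 1) < 2^(∑ t)`, so `#(Q ∩ (2^i, 2^(i+1)]) ≤ 2·2^(2(i+1)/3)` and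
`∑_{p∈Q} 1/p < ∞`.  The sum over all primes diverges (`Nat.Primes.not_summable_one_div`, or
`not_summable_one_div_on_primes`).  Hypotheses: none. -/
def StND : Prop := ∀ (y : ℕ) (B : ℝ), ∃ P : Finset ℕ,
  (∀ p ∈ P, p.Prime ∧ y ≤ p ∧ 2 < p ∧ (p : ℝ) ^ (1 / 3 : ℝ) ≤ orderOf (2 : ZMod p)) ∧
  B ≤ ∑ p ∈ P, (1 : ℝ) / p

/-- CH. Chebyshev.  `X(v) = #{p ∈ P : p ∣ 1 + ∑ 2^{v_i}}`, `E` = average over `v`, `s = ∑ 1/p`.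
`E X = ∑ prb p ∈ [s - s/y, s + s/y] ⊆ [s/2, 3s/2]`.
`E X² = ∑_p prb p + 2 ∑_{p<q} prb(pq)` (for `p ≠ q` both divide iff `pq` does),
`(E X)² ≥ 2 ∑_{p<q} prb p prb q`, `prb p prb q ≥ (1/pq)(1-1/p)(1-1/q) ≥ (1/pq)(1-2/p)`, so
`Var X ≤ 3s/2 + 2 ∑_{p<q} (5/p)/(pq) ≤ 3s/2 + 5s²/y`.  `R ≤ s/4`: `#{X ≤ R}/T^k ≤ Var/(s/4)² ≤
24/s + 80/y`.  Hypotheses: none. -/
def StCH : Prop := ∀ (T k R y : ℕ) (P : Finset ℕ), 0 < T → 2 ≤ y →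
  (∀ p ∈ P, p.Prime ∧ y ≤ p) → (∀ p ∈ P, |prb p T k - 1 / p| ≤ 1 / (p : ℝ) ^ 2) →
  (∀ p ∈ P, ∀ q ∈ P, p < q → prb (p * q) T k ≤ 1 / ((p : ℝ) * q) * (1 + 3 / p)) →
  4 * ((R : ℝ) + 1) ≤ ∑ p ∈ P, (1 : ℝ) / p →
  ((((univ : Finset (Fin k → Fin T)).filter (fun v =>
    (P.filter (fun p => 1 + ∑ i, (2 : ZMod p) ^ (v i : ℕ) = 0)).card ≤ R)).card : ℝ))
    ≤ (32 / (∑ p ∈ P, (1 : ℝ) / p) + 80 / y) * (T : ℝ) ^ k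

/-- TR. Transfer.  Every `D` (a `k`-subset of `[1,N)`) comes from `k!` injective maps
`w : Fin k → range N`; reducing `w` modulo `T` does not change the condition (`2^T = 1`), every `v` has at
most `((N+T)/T)^k` preimages `w`.  So `k! #{D} ≤ θ T^k (N+T)^k/T^k`.  Hypotheses: none. -/
def StTR : Prop := ∀ (T k R N : ℕ) (θ : ℝ) (P : Finset ℕ), 0 < T →
  (∀ p ∈ P, (2 : ZMod p) ^ T = 1) →
  ((((univ : Finset (Fin k → Fin T)).filter (fun v =>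
    (P.filter (fun p => 1 + ∑ i, (2 : ZMod p) ^ (v i : ℕ) = 0)).card ≤ R)).card : ℝ))
    ≤ θ * (T : ℝ) ^ k →
  (k.factorial : ℝ) * ((((Ico 1 N).powersetCard k).filter (fun D =>
    (P.filter (fun p => p ∣ 1 + ∑ i ∈ D, 2 ^ i)).card ≤ R)).card : ℝ) ≤ θ * ((N : ℝ) + T) ^ k

/-- BN. Binary digits.  `D ↦ 1 + ∑_{i∈D} 2^i` is a bijection from the `k`-subsets of `[1,N)` onto the odd
`m < 2^N` with digit sum `k+1` (`Nat.bitIndices`, `Finset.equivBitIndices`, or induction on `N`).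
Hypotheses: none. -/
def StBN : Prop := ∀ (k N : ℕ) (Q : ℕ → Prop) [DecidablePred Q], 1 ≤ N →
  ((range (2 ^ N)).filter (fun m => Odd m ∧ (Nat.digits 2 m).sum = k + 1 ∧ Q m)).card
    = (((Ico 1 N).powersetCard k).filter (fun D => Q (1 + ∑ i ∈ D, 2 ^ i))).card

/-- FIN. Let `k ≥ k₀` (PA, PB).  Given `R`, `δ`: choose `y ≥ p₀, 2` with `80/y ≤ δ/8`, `P` from ND with
`s ≥ 4(R+1)` and `32/s ≤ δ/8`, `T = ∏_{p∈P} (p-1)` (Fermat: `2^T = 1` modulo every `p` and modulo every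
`pq`, by the Chinese remainder theorem).  CH: `θ = δ/4`.  TR, BN (with `Q m`: `ω(m) ≤ R`, which implies
`#{p ∈ P : p ∣ m} ≤ R`): the number of bad `m` is at most `(δ/4)(N+T)^k/k!`; the total number is
`C(N-1,k) ≥ (N-k)^k/k!`, and `((N+T)/(N-k))^k ≤ 2` for large `N`.
Hypotheses: hPA hPB hND hCH hTR hBN. -/
def StFIN : Prop := ∃ k₀ : ℕ, ∀ k : ℕ, k₀ ≤ k → ∀ (R : ℕ) (δ : ℝ), 0 < δ → ∃ N₀ : ℕ,
  ∀ N : ℕ, N₀ ≤ N →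
  (((range (2 ^ N)).filter (fun m => Odd m ∧ (Nat.digits 2 m).sum = k + 1 ∧
    m.primeFactors.card ≤ R)).card : ℝ)
    ≤ δ * (((range (2 ^ N)).filter (fun m => Odd m ∧ (Nat.digits 2 m).sum = k + 1)).card : ℝ)

end Pool.Agent.Helper36.SPR
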