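import Mathlib
import Pool.Agent.Helper36.SPR.Defs

/-!
# Project SPR (MP_343216_nt): quantitative endgame

THEOREM (`StFIN2`): there is `k₀` such that for all `k ≥ k₀` and all large `N`, all but at most a
proportion `800 / log log N` of the odd integers `m < 2^N` with exactly `k+1` binary ones have more
than `(log log N) / 8` distinct prime factors.  In particular there are at most
`(800 / log log N) C(N-1,k)` `k`-class primes below `2^N`.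
-/

set_option autoImplicit false

namespace Pool.Agent.Helper36.SPR

open Finset
open scoped Pointwise

/-- MN. Comparison of the average over `i < N` with the average over a period:
`Σ_{i<N} ψ(a 2^i)` = `⌊N/T⌋` full periods (each equal to `T mu(n,T)(a)`, as `2^T = 1`) plus fewer
than `T` terms of modulus one.  (`Finset.sum_range` with `N = T * (N / T) + N % T`,
`Finset.sum_range_add`, induction on the number of periods.)  Hypotheses: none. -/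
def StMN : Prop := ∀ (n T N : ℕ) [NeZero n], 0 < T → 0 < N → (2 : ZMod n) ^ T = 1 →
  ∀ a : ZMod n, ‖mu n N a‖ ≤ ‖mu n T a‖ + (T : ℝ) / N

/-- EN. From EP and EQ (`ε₁` = the smaller one of the two exponents) with `T = p - 1` (Fermat) and
`T = (p-1)(q-1)` (`2^T = 1` modulo `p q` by the Chinese remainder theorem).  MN:
`‖mu‖ ≤ p^(-ε₁) + T/N ≤ p^(-ε₁) + p^(-1)`, respectively `q^(-ε₁) + q^2/q^4 ≤ q^(-ε₁) + q^(-1)`.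
With `ε = min(ε₁,1)/2` this is at most `2 p^(-2ε) ≤ p^(-ε)` as soon as `p^ε ≥ 2`.  Take `p₀ ≥ 3`.
Hypotheses: hMN hEP hEQ. -/
def StEN : Prop := ∃ ε : ℝ, 0 < ε ∧ ∃ p₀ : ℕ,
  (∀ (p N : ℕ) [NeZero p], p₀ ≤ p → p.Prime → p ^ 2 ≤ N →
    (p : ℝ) ^ (1 / 3 : ℝ) ≤ orderOf (2 : ZMod p) →
    ∀ a : ZMod p, a ≠ 0 → ‖mu p N a‖ ≤ (p : ℝ) ^ (-ε)) ∧
  (∀ (p q N : ℕ) [NeZero p] [NeZero q], p₀ ≤ p → p.Prime → q.Prime → p < q → q ^ 4 ≤ N →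
    (p : ℝ) ^ (1 / 3 : ℝ) ≤ orderOf (2 : ZMod p) → (q : ℝ) ^ (1 / 3 : ℝ) ≤ orderOf (2 : ZMod q) →
    ∀ a : ZMod (p * q), IsUnit a → ‖mu (p * q) N a‖ ≤ (q : ℝ) ^ (-ε))

/-- PA2. `|prb - 1/p| ≤ p⁻¹ (p-1) p^(-εk) ≤ p^(-2)` if `εk ≥ 2` (PF, EN).  Hypotheses: hPF hEN. -/
def StPA2 : Prop := ∃ k₀ p₀ : ℕ, ∀ (p N k : ℕ) [NeZero p], k₀ ≤ k → p₀ ≤ p → p.Prime → p ^ 2 ≤ N →
  (p : ℝ) ^ (1 / 3 : ℝ) ≤ orderOf (2 : ZMod p) →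
  |prb p N k - 1 / p| ≤ 1 / (p : ℝ) ^ 2

/-- PB2. The nonzero nonunits of `ZMod (pq)` are `q x` (`1 ≤ x < p`) and `p x` (`1 ≤ x < q`); PF, MC
and EN: `pq |prb - 1/(pq)| ≤ p·p^(-εk) + q·q^(-εk) + pq·q^(-εk) ≤ 1/p + 1/q + 1/q ≤ 3/p` if
`εk ≥ 3`.  Hypotheses: hPF hMC hEN. -/
def StPB2 : Prop := ∃ k₀ p₀ : ℕ, ∀ (p q N k : ℕ) [NeZero p] [NeZero q], k₀ ≤ k → p₀ ≤ p →
  p.Prime → q.Prime → p < q → q ^ 4 ≤ N →
  (p : ℝ) ^ (1 / 3 : ℝ) ≤ orderOf (2 : ZMod p) → (q : ℝ) ^ (1 / 3 : ℝ) ≤ orderOf (2 : ZMod q) →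
  prb (p * q) N k ≤ 1 / ((p : ℝ) * q) * (1 + 3 / p)

/-- CH2. Chebyshev.  `X(v) = #{p ∈ P : p ∣ 1 + ∑ 2^{v_i}}`, `E` = average over `v`, `s = ∑ 1/p`.
`E X = ∑ prb p`, `∑ 1/p² ≤ s/2`, so `s/2 ≤ E X ≤ 3s/2`.
`E X² = ∑_p prb p + 2 ∑_{p<q} prb(pq)` (for primes `p ≠ q` both divide iff `pq` does),
`(E X)² ≥ 2 ∑_{p<q} prb p prb q`, `prb p prb q ≥ (1/pq)(1-1/p)(1-1/q) ≥ (1/pq)(1-2/p)`, so
`Var X ≤ 3s/2 + 2 ∑_{p<q} (5/p)/(pq) ≤ 3s/2 + 10 s ∑ 1/p² ≤ 12 s` (`∑_{n≥2} 1/n² ≤ 1`).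
`R ≤ s/4 - 1`: `#{X ≤ R}/T^k ≤ Var/(s/4)² ≤ 192/s`.  Hypotheses: none. -/
def StCH2 : Prop := ∀ (T k R : ℕ) (P : Finset ℕ), 0 < T →
  (∀ p ∈ P, p.Prime) → (∀ p ∈ P, |prb p T k - 1 / p| ≤ 1 / (p : ℝ) ^ 2) →
  (∀ p ∈ P, ∀ q ∈ P, p < q → prb (p * q) T k ≤ 1 / ((p : ℝ) * q) * (1 + 3 / p)) →
  4 * ((R : ℝ) + 1) ≤ ∑ p ∈ P, (1 : ℝ) / p →
  ((((univ : Finset (Fin k → Fin T)).filter (fun v =>
    (P.filter (fun p => 1 + ∑ i, (2 : ZMod p) ^ (v i : ℕ) = 0)).card ≤ R)).card : ℝ))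
    ≤ 200 / (∑ p ∈ P, (1 : ℝ) / p) * (T : ℝ) ^ k

/-- QS. Primes with a small order of two.  Every such `p ≤ 2^(i+1)` divides
`∏_{1 ≤ t ≤ 2^((i+1)/3)} (2^t - 1) < 2^(∑ t)`, so there are at most `2·2^(2(i+1)/3)` of them in
`(2^i, 2^(i+1)]`, and `∑ 1/p ≤ ∑_i 2·2^(2(i+1)/3 - i) < ∞`.  Hypotheses: none. -/
def StQS : Prop := ∃ C : ℝ, ∀ P : Finset ℕ,
  (∀ p ∈ P, p.Prime ∧ 2 < p ∧ (orderOf (2 : ZMod p) : ℝ) < (p : ℝ) ^ (1 / 3 : ℝ)) →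
  ∑ p ∈ P, (1 : ℝ) / p ≤ C

/-- ME. Mertens, lower bound.  `∏_{p ≤ z} (1 - 1/p)⁻¹ ≥ ∑_{n ≤ z} 1/n ≥ log z`
(`EulerProduct.summable_and_hasSum_smoothNumbers_prod_primesBelow_geometric` or a finite version,
`log_add_one_le_harmonic`), `- log (1 - 1/p) ≤ 1/p + 1/p²` for `p ≥ 2`, `∑ 1/p² ≤ 1`; so
`log log z ≤ ∑_{p ≤ z} 1/p + 1`.  Hypotheses: none. -/
def StME : Prop := ∃ C : ℝ, ∀ z : ℕ, 3 ≤ z →
  Real.log (Real.log z) - C ≤ ∑ p ∈ (Icc 1 z).filter Nat.Prime, (1 : ℝ) / p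

/-- ND2. Take all primes `p ∈ [y,z]`, `p > 2`, with order at least `p^(1/3)` (classical filter):
from the sum in ME remove the `p < max y 3` (a constant) and those with small order (QS).
Hypotheses: hQS hME. -/
def StND2 : Prop := ∀ y : ℕ, ∃ C : ℝ, ∀ z : ℕ, 3 ≤ z → ∃ P : Finset ℕ,
  (∀ p ∈ P, p.Prime ∧ y ≤ p ∧ p ≤ z ∧ 2 < p ∧ (p : ℝ) ^ (1 / 3 : ℝ) ≤ orderOf (2 : ZMod p)) ∧
  Real.log (Real.log z) - C ≤ ∑ p ∈ P, (1 : ℝ) / p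

/-- TR2. Every `D` (a `k`-subset of `[1,N)`) comes from `k!` injective maps `v : Fin k → Fin N`
with image `D`, and `1 + ∑_{i∈D} 2^i = 1 + ∑_i 2^{v i}`; `p ∣ m` iff `(m : ZMod p) = 0`
(`ZMod.natCast_eq_zero_iff`).  (For instance: the map `v ↦ image of v` from the injective bad maps
onto the bad sets has fibres of size `k!`.)  Hypotheses: none. -/
def StTR2 : Prop := ∀ (k R N : ℕ) (P : Finset ℕ),
  k.factorial * (((Ico 1 N).powersetCard k).filter (fun D =>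
    (P.filter (fun p => p ∣ 1 + ∑ i ∈ D, 2 ^ i)).card ≤ R)).card ≤
  ((univ : Finset (Fin k → Fin N)).filter (fun v =>
    (P.filter (fun p => 1 + ∑ i, (2 : ZMod p) ^ (v i : ℕ) = 0)).card ≤ R)).card

/-- FIN2. `y = max of the p₀`, `z` the largest integer with `z^4 ≤ N`, `P` from ND2,
`s ≥ log log N - C'`, `R = ⌊(log log N)/8⌋`, CH2, TR2, BN.  Hypotheses: hPA2 hPB2 hND2 hCH2 hTR2 hBN. -/
def StFIN2 : Prop := ∃ k₀ : ℕ, ∀ k : ℕ, k₀ ≤ k → ∃ N₀ : ℕ, ∀ N : ℕ, N₀ ≤ N →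
  (((range (2 ^ N)).filter (fun m => Odd m ∧ (Nat.digits 2 m).sum = k + 1 ∧
    m.primeFactors.card ≤ ⌊Real.log (Real.log N) / 8⌋₊)).card : ℝ)
    ≤ 800 / Real.log (Real.log N) *
      (((range (2 ^ N)).filter (fun m => Odd m ∧ (Nat.digits 2 m).sum = k + 1)).card : ℝ)

end Pool.Agent.Helper36.SPR
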