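import Pool.Agent.Helper36.SPR.St
import Pool.Agent.Helper28.SPR.M_CQ

/-!
# Project SPR, module CP
-/

set_option autoImplicit false

namespace Pool.Agent.Helper36.SPR

open Finset
open scoped Pointwise

theorem cp_pt {p : ℕ} [Fact p.Prime] (D : Finset (ZMod p)) (u1 v1 u2 v2 : ZMod p) :
    (D.filter (fun c => u1 + c * v1 = u2 + c * v2)).card ≤
      (if u1 = u2 ∧ v1 = v2 then D.card else 0) + 1 := by
  by_cases h : v1 = v2
  · subst h
    by_cases h' : u1 = u2
    · rw [if_pos ⟨h', rfl⟩]
      exact (Finset.card_filter_le _ _).trans (Nat.le_succ _)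
    · rw [if_neg (fun h2 => h' h2.1)]
      have : D.filter (fun c => u1 + c * v1 = u2 + c * v1) = ∅ := by
        rw [Finset.filter_eq_empty_iff]
        intro c _ hc
        exact h' (add_right_cancel hc)
      rw [this]; simp
  · rw [if_neg (fun h2 => h h2.2), zero_add]
    rw [Finset.card_le_one]
    intro a ha b hb
    rw [Finset.mem_filter] at ha hb
    have hv : v1 - v2 ≠ 0 := sub_ne_zero.2 h
    have e : (a - b) * (v1 - v2) = 0 := by
      have h1 := ha.2
      have h2 := hb.2
      linear_combination h1 - h2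
    rcases mul_eq_zero.1 e with h3 | h3
    · exact sub_eq_zero.1 h3
    · exact absurd h3 hv

theorem hCP : StCP := by
  intro p _ S L hp hL h2 D hD
  have : Fact p.Prime := ⟨hp⟩
  rcases Finset.eq_empty_or_nonempty D with hDe | _
  · subst hDe
    rw [Finset.card_empty, Nat.cast_zero]; positivity
  have hS0 : (0 : ℝ) < S.card := by linarith
  set P : Finset (ZMod p × ZMod p) := S ×ˢ S with hP
  have hPc : P.card = S.card * S.card := Finset.card_product _ _
  -- every `c`
  have h1 : ∀ c ∈ D, (S.card : ℝ) ^ 3 ≤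
      L * ((P ×ˢ P).filter (fun x => x.1.1 + c * x.1.2 = x.2.1 + c * x.2.2)).card := by
    intro c hc
    have h3 := Pool.Agent.Helper28.SPR.cqCS P (S + dil c S) (fun x => x.1 + c * x.2) (by
      intro x hx
      rw [hP, Finset.mem_product] at hx
      exact Finset.add_mem_add hx.1 (Finset.mem_image_of_mem _ hx.2))
    rw [hPc] at h3
    have h4 : ((S.card : ℝ) * S.card) ^ 2 ≤ ((S + dil c S).card : ℝ) *
        ((P ×ˢ P).filter (fun x => x.1.1 + c * x.1.2 = x.2.1 + c * x.2.2)).card := by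
      exact_mod_cast h3
    have h5 := hD c hc
    set Qc : ℝ := (((P ×ˢ P).filter
      (fun x => x.1.1 + c * x.1.2 = x.2.1 + c * x.2.2)).card : ℝ) with hQc
    have hQ0 : 0 ≤ Qc := Nat.cast_nonneg _
    have h6 : ((S.card : ℝ) * S.card) ^ 2 ≤ L * S.card * Qc :=
      h4.trans (mul_le_mul_of_nonneg_right h5 hQ0)
    have h7 : (S.card : ℝ) * (S.card : ℝ) ^ 3 ≤ S.card * (L * Qc) := by
      calc (S.card : ℝ) * (S.card : ℝ) ^ 3 = ((S.card : ℝ) * S.card) ^ 2 := by ring
        _ ≤ L * S.card * Qc := h6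
        _ = S.card * (L * Qc) := by ring
    exact le_of_mul_le_mul_left h7 hS0
  -- sum over `c`
  have h3 : ∑ c ∈ D, ((P ×ˢ P).filter (fun x => x.1.1 + c * x.1.2 = x.2.1 + c * x.2.2)).card
      ≤ P.card * D.card + P.card * P.card := by
    have e1 : ∑ c ∈ D, ((P ×ˢ P).filter
        (fun x => x.1.1 + c * x.1.2 = x.2.1 + c * x.2.2)).card
        = ∑ x ∈ P ×ˢ P, (D.filter (fun c => x.1.1 + c * x.1.2 = x.2.1 + c * x.2.2)).card := by
      simp_rw [Finset.card_filter]
      exact Finset.sum_comm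
    rw [e1]
    calc ∑ x ∈ P ×ˢ P, (D.filter (fun c => x.1.1 + c * x.1.2 = x.2.1 + c * x.2.2)).card
        ≤ ∑ x ∈ P ×ˢ P, ((if x.1.1 = x.2.1 ∧ x.1.2 = x.2.2 then D.card else 0) + 1) :=
          Finset.sum_le_sum fun x _ => cp_pt D _ _ _ _
      _ = ((P ×ˢ P).filter (fun x => x.1.1 = x.2.1 ∧ x.1.2 = x.2.2)).card * D.card
          + P.card * P.card := by
          rw [Finset.sum_add_distrib, ← Finset.sum_filter, Finset.sum_const, Finset.sum_const,
            Finset.card_product]
          simp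
      _ ≤ P.card * D.card + P.card * P.card := by
          refine Nat.add_le_add_right (Nat.mul_le_mul_right _ ?_) _
          refine Finset.card_le_card_of_injOn (fun x => x.1) ?_ ?_
          · intro x hx
            rw [Finset.mem_coe, Finset.mem_filter, Finset.mem_product] at hx
            exact hx.1.1
          · intro x hx y hy hxy
            rw [Finset.mem_coe, Finset.mem_filter] at hx hy
            have a1 : x.1 = x.2 := Prod.ext hx.2.1 hx.2.2
            have a2 : y.1 = y.2 := Prod.ext hy.2.1 hy.2.2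
            exact Prod.ext hxy (by rw [← a1, ← a2]; exact hxy)
  have h4 : (D.card : ℝ) * (S.card : ℝ) ^ 3 ≤
      L * ((S.card : ℝ) ^ 2 * D.card + (S.card : ℝ) ^ 4) := by
    calc (D.card : ℝ) * (S.card : ℝ) ^ 3 = ∑ c ∈ D, (S.card : ℝ) ^ 3 := by
          rw [Finset.sum_const, nsmul_eq_mul]
      _ ≤ ∑ c ∈ D, L * ((P ×ˢ P).filter
          (fun x => x.1.1 + c * x.1.2 = x.2.1 + c * x.2.2)).card := Finset.sum_le_sum h1
      _ = L * ((∑ c ∈ D, ((P ×ˢ P).filter
          (fun x => x.1.1 + c * x.1.2 = x.2.1 + c * x.2.2)).card : ℕ) : ℝ) := by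
          rw [← Finset.mul_sum]; push_cast; rfl
      _ ≤ L * ((S.card : ℝ) ^ 2 * D.card + (S.card : ℝ) ^ 4) := by
          refine mul_le_mul_of_nonneg_left ?_ hL.le
          have h5 := (Nat.cast_le (α := ℝ)).2 h3
          rw [hPc] at h5
          push_cast at h5 ⊢
          calc _ ≤ _ := h5
            _ = _ := by ring
  have h5 : (S.card : ℝ) ^ 3 * D.card ≤ (S.card : ℝ) ^ 3 * (2 * L * S.card) := by
    have h6 : 2 * L * ((S.card : ℝ) ^ 2 * D.card) ≤ S.card * ((S.card : ℝ) ^ 2 * D.card) :=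
      mul_le_mul_of_nonneg_right h2 (by positivity)
    nlinarith
  exact le_of_mul_le_mul_left h5 (by positivity)

end Pool.Agent.Helper36.SPR
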