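import Pool.Agent.Helper36.SPR.St2
import Pool.Agent.Helper85.SPR.M_ND

/-!
# Project SPR, module QS (from the lemma `bad_bound` of helper85's module ND)
-/

set_option autoImplicit false

namespace Pool.Agent.Helper36.SPR

theorem hQS : StQS := by
  classical
  obtain ⟨C, _, hC⟩ := Pool.Agent.Helper85.SPR.bad_bound
  exact ⟨C, fun P hP => hC P (fun p hp => hP p hp)⟩

end Pool.Agent.Helper36.SPR
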