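import Mathlib
import Pool.Agent.Helper36.SPR.Defs

/-!
# Project SPR (MP_343216_nt): sharper endgame

THEOREM (`StFIN3`): there is `k₀` such that for all `k ≥ k₀`, `0 < ε < 1` and all large `N`, all but at
most a proportion `200 / (ε² log log N)` of the odd integers `m < 2^N` with exactly `k+1` binary ones have
more than `(1 - ε) log log N` distinct prime factors.
-/

set_option autoImplicit false

namespace Pool.Agent.Helper36.SPR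

open Finset

/-- CH3. As CH2 with a free deviation: `E X ≥ s - ∑ 1/p² ≥ s - 1`, `Var X ≤ 12 s`, and
`(X - E X)² ≥ lam²` if `X ≤ s - 1 - lam`.  Hypotheses: none. -/
def StCH3 : Prop := ∀ (T k : ℕ) (lam : ℝ) (P : Finset ℕ), 0 < T → 0 < lam →
  (∀ p ∈ P, p.Prime) → (∀ p ∈ P, |prb p T k - 1 / p| ≤ 1 / (p : ℝ) ^ 2) →
  (∀ p ∈ P, ∀ q ∈ P, p < q → prb (p * q) T k ≤ 1 / ((p : ℝ) * q) * (1 + 3 / p)) →
  (((univ : Finset (Fin k → Fin T)).filter (fun v =>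
    ((P.filter (fun p => 1 + ∑ i, (2 : ZMod p) ^ (v i : ℕ) = 0)).card : ℝ)
      ≤ (∑ p ∈ P, (1 : ℝ) / p) - 1 - lam)).card : ℝ)
    ≤ 12 * (∑ p ∈ P, (1 : ℝ) / p) / lam ^ 2 * (T : ℝ) ^ k

/-- FIN3. `y = max of the p₀`, `z` the largest integer with `z^4 ≤ N`, `P` from ND2,
`L = log log N`, `s ≥ L - C'`, `lam = s - 1 - (1-ε) L ≥ (ε/2) s`, CH3, TR2, BN.
Hypotheses: hPA2 hPB2 hND2 hCH3 hTR2 hBN. -/
def StFIN3 : Prop := ∃ k₀ : ℕ, ∀ k : ℕ, k₀ ≤ k → ∀ ε : ℝ, 0 < ε → ε < 1 → ∃ N₀ : ℕ,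
  ∀ N : ℕ, N₀ ≤ N →
  (((range (2 ^ N)).filter (fun m => Odd m ∧ (Nat.digits 2 m).sum = k + 1 ∧
    m.primeFactors.card ≤ ⌊(1 - ε) * Real.log (Real.log N)⌋₊)).card : ℝ)
    ≤ 200 / (ε ^ 2 * Real.log (Real.log N)) *
      (((range (2 ^ N)).filter (fun m => Odd m ∧ (Nat.digits 2 m).sum = k + 1)).card : ℝ)

end Pool.Agent.Helper36.SPR
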