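import Pool.Agent.Helper80.SPR.M_NA
import Pool.Agent.Helper79.SPR.M_NB
import Pool.Agent.Helper68.SPR.M_NP
import Pool.Agent.Helper60.SPR.M_OR
import Pool.Agent.Helper92.SPR.M_PR
import Pool.Agent.Helper89.SPR.M_PS
import Pool.Agent.Helper94.SPR.M_BI
import Pool.Agent.Helper39.SPR.M_AE
import Pool.Agent.Helper4.SPR.M_BA
import Pool.Agent.Helper52.SPR.M_BM
import Pool.Agent.Helper39.SPR.M_LV
import Pool.Agent.Helper9.SPR.M_ST
import Pool.Agent.Helper72.SPR.M_PL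
import Pool.Agent.Helper48.SPR.M_GC
import Pool.Agent.Helper2.SPR.M_RT
import Pool.Agent.Helper2.SPR.M_PV
import Pool.Agent.Helper36.SPR.M_CP
import Pool.Agent.Helper78.SPR.M_SP
import Pool.Agent.Helper67.SPR.M_FB
import Pool.Agent.Helper51.SPR.M_DB
import Pool.Agent.Helper28.SPR.M_CQ
import Pool.Agent.Helper76.SPR.M_SQ
import Pool.Agent.Helper7.SPR.M_FP
import Pool.Agent.Helper95.SPR.M_FQ
import Pool.Agent.Helper13.SPR.M_EP
import Pool.Agent.Helper61.SPR.M_EQ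
import Pool.Agent.Helper98.SPR.M_MC
import Pool.Agent.Helper62.SPR.M_PF
import Pool.Agent.Helper91.SPR.M_BN
import Pool.Agent.Helper78.SPR.M_MN
import Pool.Agent.Helper7.SPR.M_EN
import Pool.Agent.Helper99.SPR.M_PA2
import Pool.Agent.Helper29.SPR.M_PB2
import Pool.Agent.Helper43.SPR.M_CH3
import Pool.Agent.Helper36.SPR.M_QS
import Pool.Agent.Helper72.SPR.M_ME
import Pool.Agent.Helper48.SPR.M_ND2
import Pool.Agent.Helper75.SPR.M_TR2
import Pool.Agent.Helper36.SPR.M_FIN3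

/-!
# Project SPR: assembly
-/

set_option autoImplicit false

namespace Pool.Agent.Helper36.SPR

theorem aNA : StNA := Pool.Agent.Helper80.SPR.hNA

theorem aNB : StNB := Pool.Agent.Helper79.SPR.hNB aNA

theorem aNP : StNP := Pool.Agent.Helper68.SPR.hNP aNA

theorem aOR : StOR := Pool.Agent.Helper60.SPR.hOR

theorem aPR : StPR := Pool.Agent.Helper92.SPR.hPR aNA

theorem aPS : StPS := Pool.Agent.Helper89.SPR.hPS aNA aNB aPR

theorem aBI : StBI := Pool.Agent.Helper94.SPR.hBI aNB aPR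

theorem aAE : StAE := Pool.Agent.Helper39.SPR.hAE aNB aNA

theorem aBA : StBA := Pool.Agent.Helper4.SPR.hBA

theorem aBM : StBM := Pool.Agent.Helper52.SPR.hBM aBA

theorem aLV : StLV := Pool.Agent.Helper39.SPR.hLV

theorem aST : StST := Pool.Agent.Helper9.SPR.hST aNA aNB aPS aBA aBM aAE aLV

theorem aPL : StPL := Pool.Agent.Helper72.SPR.hPL

theorem aGC : StGC := Pool.Agent.Helper48.SPR.hGC aPL

theorem aRT : StRT := Pool.Agent.Helper2.SPR.hRT

theorem aPV : StPV := Pool.Agent.Helper2.SPR.hPV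

theorem aCP : StCP := Pool.Agent.Helper36.SPR.hCP

theorem aSP : StSP := Pool.Agent.Helper78.SPR.hSP aGC aRT aPV aCP

theorem aFB : StFB := Pool.Agent.Helper67.SPR.hFB

theorem aDB : StDB := Pool.Agent.Helper51.SPR.hDB

theorem aCQ : StCQ := Pool.Agent.Helper28.SPR.hCQ

theorem aSQ : StSQ := Pool.Agent.Helper76.SPR.hSQ aGC aRT aPV aFB aDB aCQ

theorem aFP : StFP := Pool.Agent.Helper7.SPR.hFP aNB aST aSP

theorem aFQ : StFQ := Pool.Agent.Helper95.SPR.hFQ aNA aNB aNP aST aSQ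

theorem aEP : StEP := Pool.Agent.Helper13.SPR.hEP aNB aOR aBI aFP

theorem aEQ : StEQ := Pool.Agent.Helper61.SPR.hEQ aNA aNB aNP aBI aFQ aEP

theorem aMC : StMC := Pool.Agent.Helper98.SPR.hMC

theorem aPF : StPF := Pool.Agent.Helper62.SPR.hPF

theorem aBN : StBN := Pool.Agent.Helper91.SPR.hBN

theorem aMN : StMN := Pool.Agent.Helper78.SPR.hMN

theorem aEN : StEN := Pool.Agent.Helper7.SPR.hEN aMN aEP aEQ

theorem aPA2 : StPA2 := Pool.Agent.Helper99.SPR.hPA2 aPF aEN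

theorem aPB2 : StPB2 := Pool.Agent.Helper29.SPR.hPB2 aPF aMC aEN

theorem aCH3 : StCH3 := Pool.Agent.Helper43.SPR.hCH3

theorem aQS : StQS := Pool.Agent.Helper36.SPR.hQS

theorem aME : StME := Pool.Agent.Helper72.SPR.hME

theorem aND2 : StND2 := Pool.Agent.Helper48.SPR.hND2 aQS aME

theorem aTR2 : StTR2 := Pool.Agent.Helper75.SPR.hTR2

theorem aFIN3 : StFIN3 := hFIN3 aPA2 aPB2 aND2 aCH3 aTR2 aBN

end Pool.Agent.Helper36.SPR
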