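import Pool.Agent.Helper36.SPR.St

/-!
# Project SPR, module FIN
-/

set_option autoImplicit false

namespace Pool.Agent.Helper36.SPR

open Finset

theorem fin_pow_one (P : Finset ℕ) (hP : ∀ p ∈ P, p.Prime ∧ 2 < p) :
    0 < ∏ p ∈ P, (p - 1) ∧ ∀ p ∈ P, (2 : ZMod p) ^ (∏ p ∈ P, (p - 1)) = 1 := by
  refine ⟨Finset.prod_pos fun p hp => by have := (hP p hp).2; omega, fun p hp => ?_⟩
  haveI : Fact p.Prime := ⟨(hP p hp).1⟩
  have h2 : (2 : ZMod p) ≠ 0 := by
    intro h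
    have h' : ((2 : ℕ) : ZMod p) = 0 := by exact_mod_cast h
    rw [ZMod.natCast_eq_zero_iff] at h'
    have := Nat.le_of_dvd (by norm_num) h'
    have := (hP p hp).2
    omega
  obtain ⟨c, hc⟩ := Finset.dvd_prod_of_mem (fun p => p - 1) hp
  rw [hc, pow_mul, ZMod.pow_card_sub_one_eq_one h2, one_pow]

theorem fin_pow_pq (p q T : ℕ) (hp : p.Prime) (hq : q.Prime) (hpq : p < q)
    (h1 : (2 : ZMod p) ^ T = 1) (h2 : (2 : ZMod q) ^ T = 1) : (2 : ZMod (p * q)) ^ T = 1 := by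
  have hc : Nat.Coprime p q := (Nat.coprime_primes hp hq).2 hpq.ne
  have e1 : 2 ^ T ≡ 1 [MOD p] := by
    rw [← ZMod.natCast_eq_natCast_iff]; push_cast; exact h1
  have e2 : 2 ^ T ≡ 1 [MOD q] := by
    rw [← ZMod.natCast_eq_natCast_iff]; push_cast; exact h2
  have e3 : 2 ^ T ≡ 1 [MOD (p * q)] := (Nat.modEq_and_modEq_iff_modEq_mul hc).1 ⟨e1, e2⟩
  rw [← ZMod.natCast_eq_natCast_iff] at e3
  push_cast at e3
  exact e3

theorem fin_growth (k T : ℕ) : ∃ N₀ : ℕ, ∀ N : ℕ, N₀ ≤ N →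
    ((N : ℝ) + T) ^ k ≤ 2 * ((N - k : ℕ) : ℝ) ^ k := by
  rcases Nat.eq_zero_or_pos k with rfl | hk
  · exact ⟨0, fun N _ => by norm_num⟩
  have hk' : (0 : ℝ) < k := by exact_mod_cast hk
  set c : ℝ := (2 : ℝ) ^ (1 / (k : ℝ)) with hc
  have hc1 : 1 < c := Real.one_lt_rpow (by norm_num) (by positivity)
  have hck : c ^ k = 2 := by
    rw [hc, ← Real.rpow_natCast, ← Real.rpow_mul (by norm_num)]
    rw [one_div, inv_mul_cancel₀ hk'.ne', Real.rpow_one]
  obtain ⟨N₁, hN₁⟩ := exists_nat_ge (((T : ℝ) + c * k) / (c - 1))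
  refine ⟨max N₁ k, fun N hN => ?_⟩
  have hNk : k ≤ N := le_trans (le_max_right _ _) hN
  have hN1 : (((T : ℝ) + c * k) / (c - 1)) ≤ N :=
    hN₁.trans (by exact_mod_cast le_trans (le_max_left _ _) hN)
  rw [div_le_iff₀ (by linarith)] at hN1
  rw [← hck, ← mul_pow]
  refine pow_le_pow_left₀ (by positivity) ?_ k
  rw [Nat.cast_sub hNk]
  nlinarith

theorem hFIN (hPA : StPA) (hPB : StPB) (hND : StND) (hCH : StCH) (hTR : StTR) (hBN : StBN) :
    StFIN := by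
  obtain ⟨k₁, p₁, H1⟩ := hPA
  obtain ⟨k₂, p₂, H2⟩ := hPB
  refine ⟨max k₁ k₂, fun k hk R δ hδ => ?_⟩
  have hk1 : k₁ ≤ k := le_trans (le_max_left _ _) hk
  have hk2 : k₂ ≤ k := le_trans (le_max_right _ _) hk
  obtain ⟨y₀, hy₀⟩ := exists_nat_ge (640 / δ)
  set y : ℕ := max (max p₁ p₂) (max 2 y₀) with hy
  have hy1 : p₁ ≤ y := le_trans (le_max_left _ _) (le_max_left _ _)
  have hy2 : p₂ ≤ y := le_trans (le_max_right _ _) (le_max_left _ _)
  have hy3 : 2 ≤ y := le_trans (le_max_left _ _) (le_max_right _ _)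
  have hy4 : y₀ ≤ y := le_trans (le_max_right _ _) (le_max_right _ _)
  obtain ⟨P, hP, hs⟩ := hND y (max (4 * ((R : ℝ) + 1)) (256 / δ))
  set s : ℝ := ∑ p ∈ P, (1 : ℝ) / p with hsd
  have hs1 : 4 * ((R : ℝ) + 1) ≤ s := le_trans (le_max_left _ _) hs
  have hs2 : 256 / δ ≤ s := le_trans (le_max_right _ _) hs
  obtain ⟨hT, hT1⟩ := fin_pow_one P (fun p hp => ⟨(hP p hp).1, (hP p hp).2.2.1⟩)
  set T : ℕ := ∏ p ∈ P, (p - 1) with hTd
  have hyR : (0 : ℝ) < y := by exact_mod_cast (by omega : 0 < y)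
  have hs0 : 0 < s := lt_of_lt_of_le (by positivity) hs1
  have hch := hCH T k R y P hT hy3 (fun p hp => ⟨(hP p hp).1, (hP p hp).2.1⟩)
    (fun p hp => by
      haveI : NeZero p := ⟨(hP p hp).1.ne_zero⟩
      exact H1 p T k hk1 (le_trans hy1 (hP p hp).2.1) (hP p hp).1 hT (hT1 p hp) (hP p hp).2.2.2)
    (fun p hp q hq hpq => by
      haveI : NeZero p := ⟨(hP p hp).1.ne_zero⟩
      haveI : NeZero q := ⟨(hP q hq).1.ne_zero⟩
      exact H2 p q T k hk2 (le_trans hy2 (hP p hp).2.1) (hP p hp).1 (hP q hq).1 hpq hT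
        (fin_pow_pq p q T (hP p hp).1 (hP q hq).1 hpq (hT1 p hp) (hT1 q hq))
        (hP p hp).2.2.2 (hP q hq).2.2.2)
    hs1
  have hθ : 32 / s + 80 / (y : ℝ) ≤ δ / 4 := by
    have a1 : 32 / s ≤ δ / 8 := by
      rw [div_le_iff₀ hs0]
      rw [div_le_iff₀ hδ] at hs2
      nlinarith
    have a2 : 80 / (y : ℝ) ≤ δ / 8 := by
      have h3 : 640 / δ ≤ y := hy₀.trans (by exact_mod_cast hy4)
      rw [div_le_iff₀ hyR]
      rw [div_le_iff₀ hδ] at h3
      nlinarith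
    linarith
  have hθ2 : ((((univ : Finset (Fin k → Fin T)).filter (fun v =>
      (P.filter (fun p => 1 + ∑ i, (2 : ZMod p) ^ (v i : ℕ) = 0)).card ≤ R)).card : ℝ))
      ≤ δ / 4 * (T : ℝ) ^ k := hch.trans (mul_le_mul_of_nonneg_right hθ (by positivity))
  obtain ⟨N₀, hN₀⟩ := fin_growth k T
  refine ⟨max N₀ 1, fun N hN => ?_⟩
  have hN1 : 1 ≤ N := le_trans (le_max_right _ _) hN
  have hg := hN₀ N (le_trans (le_max_left _ _) hN)
  have htr := hTR T k R N (δ / 4) P hT hT1 hθ2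
  have hbad := hBN k N (fun m => m.primeFactors.card ≤ R) hN1
  have htot := hBN k N (fun _ => True) hN1
  have hsub : ((((Ico 1 N).powersetCard k).filter
      (fun D => (1 + ∑ i ∈ D, 2 ^ i).primeFactors.card ≤ R)).card : ℝ) ≤
      ((((Ico 1 N).powersetCard k).filter (fun D =>
        (P.filter (fun p => p ∣ 1 + ∑ i ∈ D, 2 ^ i)).card ≤ R)).card : ℝ) := by
    norm_cast
    refine Finset.card_le_card ?_
    intro D hD
    rw [Finset.mem_filter] at hD ⊢
    refine ⟨hD.1, le_trans (Finset.card_le_card ?_) hD.2⟩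
    intro p hp
    rw [Finset.mem_filter] at hp
    exact Nat.mem_primeFactors.2 ⟨(hP p hp.1).1, hp.2, by omega⟩
  have htot2 : ((range (2 ^ N)).filter (fun m => Odd m ∧ (Nat.digits 2 m).sum = k + 1)).card
      = (N - 1).choose k := by
    have e : (range (2 ^ N)).filter (fun m => Odd m ∧ (Nat.digits 2 m).sum = k + 1)
        = (range (2 ^ N)).filter (fun m => Odd m ∧ (Nat.digits 2 m).sum = k + 1 ∧ True) :=
      Finset.filter_congr (fun m _ => by tauto)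
    rw [e, htot, Finset.filter_true_of_mem (fun _ _ => trivial), Finset.card_powersetCard,
      Nat.card_Ico]
  have hdesc : ((N - k : ℕ) : ℝ) ^ k ≤ (k.factorial : ℝ) * ((N - 1).choose k : ℝ) := by
    have h := Nat.pow_sub_le_descFactorial (N - 1) k
    rw [Nat.descFactorial_eq_factorial_mul_choose, Nat.sub_add_cancel hN1] at h
    exact_mod_cast h
  rw [htot2, hbad]
  have hk0 : (0 : ℝ) < k.factorial := by exact_mod_cast Nat.factorial_pos k
  have hmain : (k.factorial : ℝ) * ((((Ico 1 N).powersetCard k).filter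
      (fun D => (1 + ∑ i ∈ D, 2 ^ i).primeFactors.card ≤ R)).card : ℝ)
      ≤ (k.factorial : ℝ) * (δ * ((N - 1).choose k : ℝ)) := by
    calc _ ≤ (k.factorial : ℝ) * ((((Ico 1 N).powersetCard k).filter (fun D =>
        (P.filter (fun p => p ∣ 1 + ∑ i ∈ D, 2 ^ i)).card ≤ R)).card : ℝ) :=
          mul_le_mul_of_nonneg_left hsub hk0.le
      _ ≤ δ / 4 * ((N : ℝ) + T) ^ k := htr
      _ ≤ δ / 4 * (2 * ((N - k : ℕ) : ℝ) ^ k) := mul_le_mul_of_nonneg_left hg (by positivity)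
      _ ≤ δ / 4 * (2 * ((k.factorial : ℝ) * ((N - 1).choose k : ℝ))) := by
          refine mul_le_mul_of_nonneg_left ?_ (by positivity)
          linarith
      _ ≤ (k.factorial : ℝ) * (δ * ((N - 1).choose k : ℝ)) := by
          have : (0 : ℝ) ≤ (k.factorial : ℝ) * (δ * ((N - 1).choose k : ℝ)) := by positivity
          nlinarith
  exact le_of_mul_le_mul_left hmain hk0

end Pool.Agent.Helper36.SPR
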