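import Pool.Agent.Helper36.SPR.St
import Pool.Agent.Helper36.SPR.St2
import Pool.Agent.Helper36.SPR.M_FIN

/-!
# Project SPR, module FIN2
-/

set_option autoImplicit false

namespace Pool.Agent.Helper36.SPR

open Finset Filter

theorem fin2_loglog : Tendsto (fun N : ℕ => Real.log (Real.log (N : ℝ))) atTop atTop :=
  Real.tendsto_log_atTop.comp (Real.tendsto_log_atTop.comp tendsto_natCast_atTop_atTop)

/-- choice of `z` with `z^4 ≤ N` and `log log z ≥ log log N - 3` -/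
theorem fin2_z : ∃ N₁ : ℕ, ∀ N : ℕ, N₁ ≤ N → ∃ z : ℕ, 3 ≤ z ∧ z ^ 4 ≤ N ∧
    Real.log (Real.log N) - 3 ≤ Real.log (Real.log z) := by
  refine ⟨10 ^ 10, fun N hN => ?_⟩
  have hN0 : (0 : ℝ) < N := by
    have : 0 < N := lt_of_lt_of_le (by norm_num) hN
    exact_mod_cast this
  have hNR : ((10 : ℝ) ^ 10) ≤ N := by exact_mod_cast hN
  -- `z = floor of N^(1/4)`
  set w : ℝ := (N : ℝ) ^ (1 / 4 : ℝ) with hw
  have hw0 : 0 ≤ w := Real.rpow_nonneg hN0.le _
  have hw4 : w ^ 4 = N := by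
    rw [hw, ← Real.rpow_natCast, ← Real.rpow_mul hN0.le]
    norm_num
  have hw100 : (100 : ℝ) ≤ w := by
    by_contra h
    push Not at h
    have : w ^ 4 < 100 ^ 4 := pow_lt_pow_left₀ h hw0 (by norm_num)
    rw [hw4] at this
    have h2 : (100 : ℝ) ^ 4 ≤ 10 ^ 10 := by norm_num
    linarith
  refine ⟨⌊w⌋₊, ?_, ?_, ?_⟩
  · exact Nat.le_floor (by push_cast; linarith)
  · have h1 : (⌊w⌋₊ : ℝ) ≤ w := Nat.floor_le hw0
    have h2 : ((⌊w⌋₊ : ℝ)) ^ 4 ≤ w ^ 4 := pow_le_pow_left₀ (Nat.cast_nonneg _) h1 4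
    rw [hw4] at h2
    exact_mod_cast h2
  · -- `floor w ≥ w / 2`, `log (w/2) ≥ (log w)/2 = (log N)/8`
    have h1 : w / 2 ≤ (⌊w⌋₊ : ℝ) := by
      have := Nat.lt_floor_add_one w
      linarith
    have hlw : Real.log w = Real.log N / 4 := by
      rw [hw, Real.log_rpow hN0]; ring
    have hl2 : Real.log 2 ≤ Real.log w / 2 := by
      have : Real.log 4 ≤ Real.log w := Real.log_le_log (by norm_num) (by linarith)
      have h4 : Real.log 4 = 2 * Real.log 2 := by
        rw [show (4 : ℝ) = 2 ^ 2 by norm_num, Real.log_pow]; norm_num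
      linarith
    have hlogN : 0 < Real.log N := by
      have : Real.log w > 0 := Real.log_pos (by linarith)
      linarith
    have h3 : Real.log N / 8 ≤ Real.log (⌊w⌋₊ : ℝ) := by
      have h4 : Real.log (w / 2) ≤ Real.log (⌊w⌋₊ : ℝ) :=
        Real.log_le_log (by linarith) h1
      rw [Real.log_div (by linarith) (by norm_num)] at h4
      linarith
    have h5 : Real.log (Real.log N / 8) ≤ Real.log (Real.log (⌊w⌋₊ : ℝ)) :=
      Real.log_le_log (by positivity) h3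
    rw [Real.log_div hlogN.ne' (by norm_num)] at h5
    have h8 : Real.log 8 ≤ 3 := by
      have e : Real.log 8 = 3 * Real.log 2 := by
        rw [show (8 : ℝ) = 2 ^ 3 by norm_num, Real.log_pow]; norm_num
      rw [e]
      have := Real.log_two_lt_d9
      linarith
    linarith

theorem hFIN2 (hPA : StPA2) (hPB : StPB2) (hND : StND2) (hCH : StCH2) (hTR : StTR2)
    (hBN : StBN) : StFIN2 := by
  obtain ⟨k₁, p₁, H1⟩ := hPA
  obtain ⟨k₂, p₂, H2⟩ := hPB
  refine ⟨max k₁ k₂, fun k hk => ?_⟩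
  have hk1 : k₁ ≤ k := le_trans (le_max_left _ _) hk
  have hk2 : k₂ ≤ k := le_trans (le_max_right _ _) hk
  set y : ℕ := max p₁ p₂ with hy
  have hy1 : p₁ ≤ y := le_max_left _ _
  have hy2 : p₂ ≤ y := le_max_right _ _
  obtain ⟨C, hC⟩ := hND y
  obtain ⟨N₁, hN₁⟩ := fin2_z
  obtain ⟨N₂, hN₂⟩ := fin_growth k 0
  have hll := (Filter.tendsto_atTop.1 fin2_loglog (2 * |C| + 20)).and (eventually_ge_atTop 1)
  obtain ⟨N₃, hN₃⟩ := Filter.eventually_atTop.1 hll
  refine ⟨max (max N₁ N₂) (max N₃ 1), fun N hN => ?_⟩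
  have hNa : N₁ ≤ N := le_trans (le_trans (le_max_left _ _) (le_max_left _ _)) hN
  have hNb : N₂ ≤ N := le_trans (le_trans (le_max_right _ _) (le_max_left _ _)) hN
  have hNc : N₃ ≤ N := le_trans (le_trans (le_max_left _ _) (le_max_right _ _)) hN
  have hN1 : 1 ≤ N := le_trans (le_trans (le_max_right _ _) (le_max_right _ _)) hN
  set L : ℝ := Real.log (Real.log (N : ℝ)) with hL
  have hLC : 2 * |C| + 20 ≤ L := (hN₃ N hNc).1
  have hCa : C ≤ |C| := le_abs_self C
  have hC0 : 0 ≤ |C| := abs_nonneg C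
  have hL0 : 0 < L := by linarith
  obtain ⟨z, hz3, hz4, hz⟩ := hN₁ N hNa
  obtain ⟨P, hP, hs⟩ := hC z hz3
  set s : ℝ := ∑ p ∈ P, (1 : ℝ) / p with hsd
  have hsL : L / 2 + 5 ≤ s := by linarith
  set R : ℕ := ⌊L / 8⌋₊ with hR
  have hRL : (R : ℝ) ≤ L / 8 := Nat.floor_le (by positivity)
  have hs1 : 4 * ((R : ℝ) + 1) ≤ s := by linarith
  have hs0 : 0 < s := by linarith
  have hz2N : ∀ p, p ≤ z → p ^ 4 ≤ N := fun p hp => le_trans (Nat.pow_le_pow_left hp 4) hz4
  have hch := hCH N k R P (by omega) (fun p hp => (hP p hp).1)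
    (fun p hp => by
      have hpp := (hP p hp).1
      have : NeZero p := ⟨hpp.ne_zero⟩
      refine H1 p N k hk1 (le_trans hy1 (hP p hp).2.1) hpp ?_ (hP p hp).2.2.2.2
      exact le_trans (Nat.pow_le_pow_right hpp.pos (by norm_num)) (hz2N p (hP p hp).2.2.1))
    (fun p hp q hq hpq => by
      have : NeZero p := ⟨(hP p hp).1.ne_zero⟩
      have : NeZero q := ⟨(hP q hq).1.ne_zero⟩
      exact H2 p q N k hk2 (le_trans hy2 (hP p hp).2.1) (hP p hp).1 (hP q hq).1 hpq
        (hz2N q (hP q hq).2.2.1) (hP p hp).2.2.2.2 (hP q hq).2.2.2.2)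
    hs1
  have hθ : 200 / s ≤ 400 / L := by
    rw [div_le_div_iff₀ hs0 hL0]
    nlinarith
  have hθ2 : ((((univ : Finset (Fin k → Fin N)).filter (fun v =>
      (P.filter (fun p => 1 + ∑ i, (2 : ZMod p) ^ (v i : ℕ) = 0)).card ≤ R)).card : ℝ))
      ≤ 400 / L * (N : ℝ) ^ k := hch.trans (mul_le_mul_of_nonneg_right hθ (by positivity))
  have hg := hN₂ N hNb
  simp only [Nat.cast_zero, add_zero] at hg
  have htr : (k.factorial : ℝ) * ((((Ico 1 N).powersetCard k).filter (fun D =>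
      (P.filter (fun p => p ∣ 1 + ∑ i ∈ D, 2 ^ i)).card ≤ R)).card : ℝ) ≤
      ((((univ : Finset (Fin k → Fin N)).filter (fun v =>
      (P.filter (fun p => 1 + ∑ i, (2 : ZMod p) ^ (v i : ℕ) = 0)).card ≤ R)).card : ℝ)) := by
    exact_mod_cast hTR k R N P
  have hbad := hBN k N (fun m => m.primeFactors.card ≤ R) hN1
  have htot := hBN k N (fun _ => True) hN1
  have hsub : ((((Ico 1 N).powersetCard k).filter
      (fun D => (1 + ∑ i ∈ D, 2 ^ i).primeFactors.card ≤ R)).card : ℝ) ≤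
      ((((Ico 1 N).powersetCard k).filter (fun D =>
        (P.filter (fun p => p ∣ 1 + ∑ i ∈ D, 2 ^ i)).card ≤ R)).card : ℝ) := by
    norm_cast
    refine Finset.card_le_card ?_
    intro D hD
    rw [Finset.mem_filter] at hD ⊢
    refine ⟨hD.1, le_trans (Finset.card_le_card ?_) hD.2⟩
    intro p hp
    rw [Finset.mem_filter] at hp
    exact Nat.mem_primeFactors.2 ⟨(hP p hp.1).1, hp.2, by omega⟩
  have htot2 : ((range (2 ^ N)).filter (fun m => Odd m ∧ (Nat.digits 2 m).sum = k + 1)).card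
      = (N - 1).choose k := by
    have e : (range (2 ^ N)).filter (fun m => Odd m ∧ (Nat.digits 2 m).sum = k + 1)
        = (range (2 ^ N)).filter (fun m => Odd m ∧ (Nat.digits 2 m).sum = k + 1 ∧ True) :=
      Finset.filter_congr (fun m _ => by tauto)
    rw [e, htot, Finset.filter_true_of_mem (fun _ _ => trivial), Finset.card_powersetCard,
      Nat.card_Ico]
  have hdesc : ((N - k : ℕ) : ℝ) ^ k ≤ (k.factorial : ℝ) * ((N - 1).choose k : ℝ) := by
    have h := Nat.pow_sub_le_descFactorial (N - 1) k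
    rw [Nat.descFactorial_eq_factorial_mul_choose, Nat.sub_add_cancel hN1] at h
    exact_mod_cast h
  rw [htot2, hbad]
  have hk0 : (0 : ℝ) < k.factorial := by exact_mod_cast Nat.factorial_pos k
  have h4L : 0 ≤ 400 / L := by positivity
  have hmain : (k.factorial : ℝ) * ((((Ico 1 N).powersetCard k).filter
      (fun D => (1 + ∑ i ∈ D, 2 ^ i).primeFactors.card ≤ R)).card : ℝ)
      ≤ (k.factorial : ℝ) * (800 / L * ((N - 1).choose k : ℝ)) := by
    calc _ ≤ (k.factorial : ℝ) * ((((Ico 1 N).powersetCard k).filter (fun D =>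
        (P.filter (fun p => p ∣ 1 + ∑ i ∈ D, 2 ^ i)).card ≤ R)).card : ℝ) :=
          mul_le_mul_of_nonneg_left hsub hk0.le
      _ ≤ 400 / L * (N : ℝ) ^ k := htr.trans hθ2
      _ ≤ 400 / L * (2 * ((N - k : ℕ) : ℝ) ^ k) := mul_le_mul_of_nonneg_left hg h4L
      _ ≤ 400 / L * (2 * ((k.factorial : ℝ) * ((N - 1).choose k : ℝ))) := by
          refine mul_le_mul_of_nonneg_left ?_ h4L
          linarith
      _ = (k.factorial : ℝ) * (800 / L * ((N - 1).choose k : ℝ)) := by ring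
  exact le_of_mul_le_mul_left hmain hk0

end Pool.Agent.Helper36.SPR
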