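import Pool.Agent.Helper36.SPR.St5
import Pool.Agent.Helper36.SPR.M_FIN2

/-!
# Project SPR3, module FIN5
-/

set_option autoImplicit false

namespace Pool.Agent.Helper36.SPR

open Finset Filter

theorem fb_nonneg (k : ℕ) (B : Finset ℕ) (v : Fin k → ℕ) : 0 ≤ fb k B v := by
  unfold fb; positivity

theorem Gb_nonneg (k : ℕ) (B : ℕ → Finset ℕ) (J : ℕ) (v : Fin k → ℕ) : 0 ≤ Gb k B J v :=
  Finset.prod_nonneg fun _ _ => fb_nonneg _ _ _

/-- the analytic inequality needed at the end -/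
theorem fin5_ev (c' K : ℝ) (hc : 0 < c') : ∃ N₀ : ℕ, ∀ N : ℕ, N₀ ≤ N →
    1 < Real.log N ∧ 4 ≤ Real.log N ^ c' ∧ 2 * K * Real.log N ^ c' ≤ Real.sqrt N := by
  have h0 : Tendsto (fun N : ℕ => Real.log (N : ℝ)) atTop atTop :=
    Real.tendsto_log_atTop.comp tendsto_natCast_atTop_atTop
  have h1 : ∀ᶠ N : ℕ in atTop, 1 < Real.log (N : ℝ) := h0.eventually_gt_atTop 1
  have h2 : ∀ᶠ N : ℕ in atTop, 4 ≤ Real.log (N : ℝ) ^ c' :=
    ((tendsto_rpow_atTop hc).comp h0).eventually_ge_atTop 4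
  have h3 : ∀ᶠ x : ℝ in atTop, ‖Real.log x ^ c'‖ ≤ (1 / (2 * |K| + 1)) * ‖x ^ (1 / 2 : ℝ)‖ :=
    (isLittleO_log_rpow_rpow_atTop c' (by norm_num : (0 : ℝ) < 1 / 2)).def
      (by positivity)
  have h4 : ∀ᶠ N : ℕ in atTop, ‖Real.log (N : ℝ) ^ c'‖ ≤
      (1 / (2 * |K| + 1)) * ‖(N : ℝ) ^ (1 / 2 : ℝ)‖ := tendsto_natCast_atTop_atTop.eventually h3
  obtain ⟨N₀, hN₀⟩ := Filter.eventually_atTop.1 (h1.and (h2.and h4))
  refine ⟨N₀, fun N hN => ?_⟩
  obtain ⟨a1, a2, a3⟩ := hN₀ N hN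
  refine ⟨a1, a2, ?_⟩
  have hpos : 0 ≤ Real.log (N : ℝ) ^ c' := by linarith
  rw [Real.norm_of_nonneg hpos, Real.norm_of_nonneg (by positivity), ← Real.sqrt_eq_rpow] at a3
  have hK : 0 < 2 * |K| + 1 := by positivity
  rw [one_div, ← div_eq_inv_mul, le_div_iff₀ hK] at a3
  have hKK : K ≤ |K| := le_abs_self K
  nlinarith

theorem hFIN5 (hIT : StIT) (hPCG : StPCG) (hPCA : StPCA) (hTR : StTR4) (hNTF : StNTF)
    (hBN : StBN) : StFIN5 := by
  obtain ⟨k₁, y₁, HIT⟩ := hIT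
  obtain ⟨c, hc, N₁, HN⟩ := hNTF y₁
  have hl2 : 0 < Real.log 2 := Real.log_pos (by norm_num)
  refine ⟨max k₁ 1, c * Real.log 2 / 2, by positivity, fun k hk => ?_⟩
  have hk1 : k₁ ≤ k := le_trans (le_max_left _ _) hk
  have hkp : 1 ≤ k := le_trans (le_max_right _ _) hk
  set c' : ℝ := c * Real.log 2 / 2 with hc'
  have hc'0 : 0 < c' := by positivity
  obtain ⟨N₂, hN₂⟩ := fin_growth k 0
  obtain ⟨N₃, hN₃⟩ := fin5_ev c' (2 * k + 4 * k.factorial) hc'0
  refine ⟨max (max N₁ N₂) (max N₃ (k + 1)), fun N hN => ?_⟩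
  have hNa : N₁ ≤ N := le_trans (le_trans (le_max_left _ _) (le_max_left _ _)) hN
  have hNb : N₂ ≤ N := le_trans (le_trans (le_max_right _ _) (le_max_left _ _)) hN
  have hNc : N₃ ≤ N := le_trans (le_trans (le_max_left _ _) (le_max_right _ _)) hN
  have hNk : k + 1 ≤ N := le_trans (le_trans (le_max_right _ _) (le_max_right _ _)) hN
  have hN1 : 1 ≤ N := by omega
  have hNR : (1 : ℝ) ≤ N := by exact_mod_cast hN1
  have hN0 : (0 : ℝ) < N := by linarith
  obtain ⟨hL1, hL4, hLK⟩ := hN₃ N hNc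
  obtain ⟨J, B, M, hJ, hB, hM⟩ := HN N hNa
  set L : ℝ := Real.log (N : ℝ) with hL
  set P : ℕ := ∏ j ∈ range J, M j with hP
  -- positivity of the `M j`
  have hMpos : ∀ j ∈ range J, 1 ≤ M j := by
    intro j hj
    rw [Finset.mem_range] at hj
    by_contra h
    have hemp : B j = ∅ := by
      rw [Finset.eq_empty_iff_forall_notMem]
      intro p hp
      have := ((hB j hj).1 p hp).2.2.2.1
      have := ((hB j hj).1 p hp).2.2.1
      omega
    have := (hB j hj).2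
    rw [hemp] at this
    norm_num at this
  have hMP : ∀ j < J, M j ≤ P := by
    intro j hj
    rw [hP]
    exact Nat.le_of_dvd (Finset.prod_pos fun i hi => hMpos i hi)
      (Finset.dvd_prod_of_mem M (Finset.mem_range.2 hj))
  -- average of `Gb`
  have hIT1 : Av (Wb B J) k (Gb k B J) ≤ (1 / 2 : ℝ) ^ J :=
    HIT k J B hk1 (fun j hj => ⟨fun p hp => ⟨((hB j hj).1 p hp).1, ((hB j hj).1 p hp).2.1,
      ((hB j hj).1 p hp).2.2.2.2⟩, (hB j hj).2⟩)
  have hPC := hPCG k J B M (fun j hj => ⟨fun p hp => ⟨((hB j hj).1 p hp).1,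
      ((hB j hj).1 p hp).2.2.1, ((hB j hj).1 p hp).2.2.2.1⟩, by linarith [(hB j hj).2]⟩)
  have hW : 0 < Wb B J := by
    unfold Wb
    refine Finset.prod_pos fun j hj => Finset.prod_pos fun p hp => ?_
    have := ((hB j (Finset.mem_range.1 hj)).1 p hp).2.2.1
    omega
  have hA := hPCA k (Wb B J) _ N _ _ hW (by omega) hPC
  have e1 : ((∏ j ∈ range J, M j ^ 2 : ℕ) : ℝ) = (P : ℝ) ^ 2 := by
    rw [hP]; push_cast; rw [Finset.prod_pow]
  have e2 : (∏ j ∈ range J, (M j : ℝ) ^ 2) = (P : ℝ) ^ 2 := by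
    rw [hP]; push_cast; rw [Finset.prod_pow]
  rw [e1, e2] at hA
  have hP8 : (P : ℝ) ^ 8 ≤ N := by exact_mod_cast hM
  have hsq0 : 0 < Real.sqrt N := Real.sqrt_pos.2 hN0
  have hsq : Real.sqrt N * Real.sqrt N = N := Real.mul_self_sqrt hN0.le
  have hP4 : (P : ℝ) ^ 4 ≤ Real.sqrt N := by
    apply Real.le_sqrt_of_sq_le
    rw [← pow_mul]; exact hP8
  have hP1 : (1 : ℝ) ≤ P := by
    have : 0 < P := by
      rw [hP]
      exact Finset.prod_pos fun i hi => hMpos i hi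
    exact_mod_cast this
  have hPsq : (P : ℝ) ≤ Real.sqrt N := le_trans (le_self_pow₀ hP1 (by norm_num)) hP4
  have hAv : Av N k (Gb k B J) ≤ (1 / 2 : ℝ) ^ J + k / Real.sqrt N := by
    have h1 := (abs_le.1 hA).2
    have h2 : (k : ℝ) * (P : ℝ) ^ 2 * (P : ℝ) ^ 2 / N ≤ k / Real.sqrt N := by
      rw [div_le_div_iff₀ hN0 hsq0]
      have h3 : (P : ℝ) ^ 2 * (P : ℝ) ^ 2 = (P : ℝ) ^ 4 := by ring
      have h4 : (P : ℝ) ^ 4 * Real.sqrt N ≤ N := by
        calc (P : ℝ) ^ 4 * Real.sqrt N ≤ Real.sqrt N * Real.sqrt N :=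
              mul_le_mul_of_nonneg_right hP4 hsq0.le
          _ = N := hsq
      calc (k : ℝ) * (P : ℝ) ^ 2 * (P : ℝ) ^ 2 * Real.sqrt N
          = (k : ℝ) * ((P : ℝ) ^ 4 * Real.sqrt N) := by ring
        _ ≤ (k : ℝ) * (N : ℝ) := mul_le_mul_of_nonneg_left h4 (Nat.cast_nonneg _)
    linarith
  -- the power of one half
  have hhalf : (1 / 2 : ℝ) ^ J ≤ 1 / (L ^ c') ^ 2 := by
    have hLpos : 0 < L := by linarith
    have h1 : (1 / 2 : ℝ) ^ J = Real.exp (-(J * Real.log 2)) := by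
      rw [one_div, inv_pow, Real.exp_neg, Real.exp_nat_mul, Real.exp_log (by norm_num)]
    have h2 : 1 / (L ^ c') ^ 2 = Real.exp (-(2 * c' * Real.log L)) := by
      rw [Real.exp_neg, one_div, ← Real.rpow_natCast, ← Real.rpow_mul hLpos.le,
        Real.rpow_def_of_pos hLpos]
      congr 2
      push_cast
      ring
    rw [h1, h2]
    apply Real.exp_le_exp.2
    have h3 : 2 * c' * Real.log L = c * Real.log L * Real.log 2 := by rw [hc']; ring
    rw [h3]
    have := mul_le_mul_of_nonneg_right hJ hl2.le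
    linarith
  -- counting
  classical
  obtain ⟨Q, hQ⟩ : ∃ Q : ℕ → Prop, ∀ m, Q m ↔ (m.Prime ∧ P < m) := ⟨_, fun _ => Iff.rfl⟩
  have hbadv : (((univ : Finset (Fin k → Fin N)).filter
      (fun v => Q (1 + ∑ i, 2 ^ (v i : ℕ)))).card : ℝ)
      ≤ (N : ℝ) ^ k * Av N k (Gb k B J) := by
    unfold Av
    rw [mul_div_cancel₀ _ (by positivity)]
    rw [Finset.card_eq_sum_ones]
    push_cast
    rw [Finset.sum_filter]
    refine Finset.sum_le_sum fun v _ => ?_
    split_ifs with h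
    · rw [hQ] at h
      have hone : Gb k B J (fun i => (v i : ℕ)) = 1 := by
        unfold Gb
        refine Finset.prod_eq_one fun j hj => ?_
        have hj' := Finset.mem_range.1 hj
        have hX : Xb k (B j) (fun i => (v i : ℕ)) = 0 := by
          unfold Xb
          rw [Finset.card_eq_zero, Finset.filter_eq_empty_iff]
          intro p hp hdvd
          have hp1 := (hB j hj').1 p hp
          have h5 := (Nat.prime_dvd_prime_iff_eq hp1.1 h.1).1 hdvd
          have h6 := hMP j hj'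
          have h7 := hp1.2.2.2.1
          have h8 := h.2
          omega
        unfold fb
        rw [hX]; norm_num
      rw [hone]
    · exact Gb_nonneg _ _ _ _
  have htr := hTR k N Q
  have hbn1 := hBN k N Q hN1
  have htot := hBN k N (fun _ => True) hN1
  have htot2 : ((range (2 ^ N)).filter (fun m => Odd m ∧ (Nat.digits 2 m).sum = k + 1)).card
      = (N - 1).choose k := by
    have e : (range (2 ^ N)).filter (fun m => Odd m ∧ (Nat.digits 2 m).sum = k + 1)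
        = (range (2 ^ N)).filter (fun m => Odd m ∧ (Nat.digits 2 m).sum = k + 1 ∧ True) :=
      Finset.filter_congr (fun m _ => by tauto)
    rw [e, htot, Finset.filter_true_of_mem (fun _ _ => trivial), Finset.card_powersetCard,
      Nat.card_Ico]
  have hdesc : ((N - k : ℕ) : ℝ) ^ k ≤ (k.factorial : ℝ) * ((N - 1).choose k : ℝ) := by
    have h := Nat.pow_sub_le_descFactorial (N - 1) k
    rw [Nat.descFactorial_eq_factorial_mul_choose, Nat.sub_add_cancel hN1] at h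
    exact_mod_cast h
  have hg := hN₂ N hNb
  simp only [Nat.cast_zero, add_zero] at hg
  have hk0 : (0 : ℝ) < k.factorial := by exact_mod_cast Nat.factorial_pos k
  set tot : ℝ := ((N - 1).choose k : ℝ) with htotd
  have htot0 : 0 ≤ tot := Nat.cast_nonneg _
  have hNtot : (N : ℝ) ^ k ≤ 2 * (k.factorial : ℝ) * tot := by
    calc (N : ℝ) ^ k ≤ 2 * ((N - k : ℕ) : ℝ) ^ k := hg
      _ ≤ 2 * ((k.factorial : ℝ) * tot) := by linarith
      _ = 2 * (k.factorial : ℝ) * tot := by ring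
  have hAv0 : 0 ≤ (1 / 2 : ℝ) ^ J + k / Real.sqrt N := by positivity
  have hbig : ((((range (2 ^ N)).filter (fun m => Odd m ∧ (Nat.digits 2 m).sum = k + 1 ∧
      Q m)).card : ℝ)) ≤ 2 * tot * ((1 / 2 : ℝ) ^ J + k / Real.sqrt N) := by
    rw [hbn1]
    have h0 := (Nat.cast_le (α := ℝ)).2 htr
    rw [Nat.cast_mul] at h0
    have h2 := h0.trans hbadv
    have h3 : (N : ℝ) ^ k * Av N k (Gb k B J) ≤
        (2 * (k.factorial : ℝ) * tot) * ((1 / 2 : ℝ) ^ J + k / Real.sqrt N) :=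
      (mul_le_mul_of_nonneg_left hAv (by positivity)).trans
        (mul_le_mul_of_nonneg_right hNtot hAv0)
    have h4 : (2 * (k.factorial : ℝ) * tot) * ((1 / 2 : ℝ) ^ J + k / Real.sqrt N) =
        (k.factorial : ℝ) * (2 * tot * ((1 / 2 : ℝ) ^ J + k / Real.sqrt N)) := by ring
    rw [h4] at h3
    exact le_of_mul_le_mul_left (h2.trans h3) hk0
  have hsmall : ((((range (2 ^ N)).filter (fun m => m.Prime ∧ Odd m ∧
      (Nat.digits 2 m).sum = k + 1)).card : ℝ)) ≤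
      ((((range (2 ^ N)).filter (fun m => Odd m ∧ (Nat.digits 2 m).sum = k + 1 ∧
      Q m)).card : ℝ)) + (P + 1) := by
    have h1 : (range (2 ^ N)).filter (fun m => m.Prime ∧ Odd m ∧ (Nat.digits 2 m).sum = k + 1) ⊆
        (range (2 ^ N)).filter (fun m => Odd m ∧ (Nat.digits 2 m).sum = k + 1 ∧
          Q m) ∪ range (P + 1) := by
      intro m hm
      rw [Finset.mem_filter] at hm
      rw [Finset.mem_union, Finset.mem_filter]
      rcases Nat.lt_or_ge P m with h | h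
      · exact Or.inl ⟨hm.1, hm.2.2.1, hm.2.2.2, (hQ m).2 ⟨hm.2.1, h⟩⟩
      · exact Or.inr (Finset.mem_range.2 (by omega))
    have h2 := (Finset.card_le_card h1).trans (Finset.card_union_le _ _)
    rw [Finset.card_range] at h2
    have h3 := (Nat.cast_le (α := ℝ)).2 h2
    rw [Nat.cast_add, Nat.cast_add, Nat.cast_one] at h3
    exact h3
  rw [htot2]
  -- `P + 1 ≤ tot * 4 k! / √N`
  have hPtot : (P : ℝ) + 1 ≤ tot * (4 * k.factorial / Real.sqrt N) := by
    have h1 : (N : ℝ) ≤ 2 * (k.factorial : ℝ) * tot :=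
      le_trans (le_self_pow₀ hNR (by omega)) hNtot
    have h2 : (P : ℝ) + 1 ≤ 2 * Real.sqrt N := by
      have : (1 : ℝ) ≤ Real.sqrt N := Real.one_le_sqrt.2 hNR
      linarith
    have h3 : 2 * Real.sqrt N ≤ tot * (4 * k.factorial / Real.sqrt N) := by
      rw [mul_div_assoc', le_div_iff₀ hsq0]
      nlinarith
    linarith
  have hLc : 0 < L ^ c' := by linarith
  have hfinal : 2 * ((1 / 2 : ℝ) ^ J + k / Real.sqrt N) + 4 * k.factorial / Real.sqrt N
      ≤ 1 / L ^ c' := by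
    have h1 : 2 * (1 / 2 : ℝ) ^ J ≤ 1 / 2 * (1 / L ^ c') := by
      calc 2 * (1 / 2 : ℝ) ^ J ≤ 2 * (1 / (L ^ c') ^ 2) := by linarith
        _ ≤ 1 / 2 * (1 / L ^ c') := by
          rw [mul_one_div, mul_one_div, div_le_div_iff₀ (by positivity) hLc]
          nlinarith
    have h2 : (2 * k + 4 * k.factorial) / Real.sqrt N ≤ 1 / 2 * (1 / L ^ c') := by
      rw [mul_one_div, div_le_div_iff₀ hsq0 hLc]
      linarith
    have h3 : 2 * (k / Real.sqrt N) + 4 * k.factorial / Real.sqrt N =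
        (2 * k + 4 * k.factorial) / Real.sqrt N := by ring
    linarith
  calc ((((range (2 ^ N)).filter (fun m => m.Prime ∧ Odd m ∧
      (Nat.digits 2 m).sum = k + 1)).card : ℝ)) ≤
        2 * tot * ((1 / 2 : ℝ) ^ J + k / Real.sqrt N) + (P + 1) := by linarith
    _ ≤ 2 * tot * ((1 / 2 : ℝ) ^ J + k / Real.sqrt N) +
        tot * (4 * k.factorial / Real.sqrt N) := by linarith
    _ = tot * (2 * ((1 / 2 : ℝ) ^ J + k / Real.sqrt N) + 4 * k.factorial / Real.sqrt N) := by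
        ring
    _ ≤ tot * (1 / L ^ c') := mul_le_mul_of_nonneg_left hfinal htot0
    _ = tot / L ^ c' := by rw [mul_one_div]

end Pool.Agent.Helper36.SPR
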