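import Mathlib
import Pool.Agent.Helper36.SPR.Defs
import Pool.Agent.Helper36.SPR.St

/-!
# Project SPR3 (MP_343216_nt): statements, part 1 (powers of an arbitrary element `th`)

THEOREM of the project (`StFIN5` in `St5.lean`): there is `k₀` such that for all `k ≥ k₀`, for some
`c > 0` and all large `N`, there are at most `C(N-1,k) / (log N)^c` primes below `2^N` with exactly
`k+1` binary ones.

The statements of this file are those of `St.lean` with the powers of `2` replaced by the powers of an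
element `th` of `ZMod n` with `th ^ T = 1` (so `th` is a unit if `T > 0`).  The proofs are word for word
the same; the landed proofs for `2` are in `Pool/Agent/*/SPR/M_*.lean` (see the module rows).
-/

set_option autoImplicit false

namespace Pool.Agent.Helper36.SPR

open Finset
open scoped Pointwise

/-- average of the additive character `x ↦ e(a x / n)` over `th^i`, `i < T` -/
noncomputable def muv (n T : ℕ) [NeZero n] (th a : ZMod n) : ℂ :=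
  (∑ i ∈ range T, ZMod.stdAddChar (a * th ^ i)) / T

/-- distribution of the sum of `j` independent differences `th^i - th^i'`, `i, i' < T` uniform -/
noncomputable def nuv (n T : ℕ) [NeZero n] (th : ZMod n) : ℕ → ZMod n → ℝ
  | 0 => fun x => if x = 0 then 1 else 0
  | j + 1 => fun x =>
      (∑ i ∈ range T, ∑ i' ∈ range T, nuv n T th j (x - th ^ i + th ^ i')) / (T : ℝ) ^ 2

/-- collision probability -/
noncomputable def betv (n T : ℕ) [NeZero n] (th : ZMod n) (j : ℕ) : ℝ := nuv n T th j 0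

/-- the multiplicative self-convolution of `nuv` -/
noncomputable def rhov (n T : ℕ) [NeZero n] (th : ZMod n) (j : ℕ) (x : ZMod n) : ℝ :=
  ∑ g : ZMod n, ∑ g' : ZMod n, if g * g' = x then nuv n T th j g * nuv n T th j g' else 0

/-- probability that `1 + ∑ c_i th^{v_i} = 0`, `v_i < T` uniform -/
noncomputable def prbv (n T k : ℕ) (th : ZMod n) (c : Fin k → ZMod n) : ℝ :=
  (((Finset.univ : Finset (Fin k → Fin T)).filter
    (fun v => 1 + ∑ i, c i * th ^ (v i : ℕ) = 0)).card : ℝ) / (T : ℝ) ^ k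

/-- NA3. See NA.  Hypotheses: none. -/
def StNA3 : Prop := ∀ (n T : ℕ) [NeZero n] (th : ZMod n), 0 < T → ∀ j : ℕ,
  (∀ x, 0 ≤ nuv n T th j x) ∧ ∑ x, nuv n T th j x = 1 ∧
  (∀ a : ZMod n, ∑ x, (nuv n T th j x : ℂ) * ZMod.stdAddChar (a * x)
    = ((‖muv n T th a‖ ^ (2 * j) : ℝ) : ℂ)) ∧
  (∀ a : ZMod n, ‖muv n T th a‖ ≤ 1)

/-- NB3. See NB.  Hypotheses: hNA3. -/
def StNB3 : Prop := ∀ (n T : ℕ) [NeZero n] (th : ZMod n), 0 < T → ∀ j : ℕ,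
  (∀ x : ZMod n, (nuv n T th j x : ℂ)
    = (∑ a : ZMod n, ((‖muv n T th a‖ ^ (2 * j) : ℝ) : ℂ) * ZMod.stdAddChar (-(a * x))) / n) ∧
  betv n T th j = (∑ a : ZMod n, ‖muv n T th a‖ ^ (2 * j)) / n ∧
  0 ≤ betv n T th j ∧ (1 : ℝ) / n ≤ betv n T th j ∧
  (∀ x, nuv n T th j x ≤ betv n T th j) ∧
  ∑ x, nuv n T th j x ^ 2 = betv n T th (2 * j) ∧
  (∀ j' : ℕ, j ≤ j' → betv n T th j' ≤ betv n T th j)

/-- NP3. See NP; `th` is projected to `ZMod m` as well.  Hypotheses: hNA3. -/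
def StNP3 : Prop := ∀ (m n T : ℕ) [NeZero m] [NeZero n] (th : ZMod n), m ∣ n → 0 < T → ∀ j : ℕ,
  (∀ u : ZMod m, ∑ x ∈ (univ : Finset (ZMod n)).filter (fun x => (ZMod.cast x : ZMod m) = u),
    nuv n T th j x = nuv m T (ZMod.cast th : ZMod m) j u) ∧
  betv n T th j ≤ betv m T (ZMod.cast th : ZMod m) j

/-- OR3. See OR.  Hypotheses: none. -/
def StOR3 : Prop := ∀ (n T : ℕ) [NeZero n] (th : ZMod n), 0 < T → th ^ T = 1 →
  betv n T th 1 = 1 / (orderOf th : ℝ)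

/-- PR3. See PR.  Hypotheses: hNA3. -/
def StPR3 : Prop := ∀ (n T : ℕ) [NeZero n] (th : ZMod n), 0 < T → th ^ T = 1 → ∀ j : ℕ, 1 ≤ j →
  ∀ a : ZMod n, ‖muv n T th a‖ ^ (4 * j ^ 2) ≤
    ∑ g, nuv n T th j g * ‖muv n T th (a * g)‖ ^ (2 * j)

/-- PS3. See PS.  Hypotheses: hNA3 hNB3 hPR3. -/
def StPS3 : Prop := ∀ (n T : ℕ) [NeZero n] (th : ZMod n), 0 < T → th ^ T = 1 → ∀ j : ℕ, 1 ≤ j →
  betv n T th (4 * j ^ 2) ≤ ∑ x, rhov n T th j x ^ 2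

/-- BI3. See BI.  Hypotheses: hNB3 hPR3. -/
def StBI3 : Prop := ∀ (n T : ℕ) [NeZero n] (th : ZMod n), 0 < T → th ^ T = 1 → ∀ j : ℕ, 1 ≤ j →
  ∀ a : ZMod n, IsUnit a → ‖muv n T th a‖ ^ (4 * j ^ 2) ≤ Real.sqrt n * betv n T th j

/-- AE3. See AE.  Hypotheses: hNB3 hNA3. -/
def StAE3 : Prop := ∀ (n T : ℕ) [NeZero n] (th : ZMod n), 0 < T → ∀ (j : ℕ) (A : Finset (ZMod n)),
  (∑ x ∈ A, nuv n T th j x) ^ 4 ≤ betv n T th j ^ 3 * enA A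

/-- ST3. See ST.  Hypotheses: hNA3 hNB3 hPS3 hBA hBM hAE3 hLV. -/
def StST3 : Prop := ∀ (n T : ℕ) [NeZero n] (th : ZMod n), 0 < T → th ^ T = 1 → ∀ (j : ℕ) (K : ℝ),
  1 ≤ j → 2 ≤ K → betv n T th j ≤ K * betv n T th (4 * j ^ 2) →
  4 * (∑ x : ZMod n, if IsUnit x then 0 else nuv n T th j x) ^ 2 ≤ betv n T th j / (2 * K) →
  ∃ S : Finset ((ZMod n)ˣ), S.Nonempty ∧
    ((vl S - vl S).card : ℝ) ≤ K ^ 218 * S.card ∧ ((S / S).card : ℝ) ≤ K ^ 218 * S.card ∧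
    1 ≤ K ^ 81 * betv n T th j * S.card ∧ (S.card : ℝ) * betv n T th j ≤ K ^ 6 ∧
    ∀ u ∈ S, betv n T th j ≤ 32 * K * nuv n T th j (u : ZMod n)

/-- FP3. See FP.  Hypotheses: hNB3 hST3 hSP. -/
def StFP3 : Prop := ∀ (p T j : ℕ) [NeZero p] (th : ZMod p) (K : ℝ), p.Prime → 0 < T → th ^ T = 1 →
  1 ≤ j → 2 ≤ K → betv p T th j ≤ K * betv p T th (4 * j ^ 2) →
  1 ≤ K ^ 22000 * betv p T th j ∨ (p : ℝ) * betv p T th j ≤ K ^ 22000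

/-- FQ3. See FQ.  Hypotheses: hNA3 hNB3 hNP3 hST3 hSQ. -/
def StFQ3 : Prop := ∀ (p q T j : ℕ) [NeZero p] [NeZero q] (th : ZMod (p * q)) (K : ℝ),
  p.Prime → q.Prime → p < q →
  0 < T → th ^ T = 1 → 1 ≤ j → 2 ≤ K → (q : ℝ) ≤ K * p →
  betv p T (ZMod.cast th : ZMod p) j ≤ 2 / p → betv q T (ZMod.cast th : ZMod q) j ≤ 2 / q →
  2 / (K * p) ≤ betv (p * q) T th (4 * j ^ 2) →
  (p : ℝ) ≤ K ^ 24000

/-- EP3. As EP, with orders at least `p^(1/6)`.  `K = p^(1/176000)`, `K^22000 = p^(1/8)`,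
`p₀ = 2^176000` (never evaluate it).  `j_0 = 1`, `j_{i+1} = 4 j_i²`, `b_i = betv(j_i)`,
`b_0 = 1/ord ≤ p^(-1/6)` (OR3), `b_i` is decreasing.  If `b_i > p^(-7/8)` then both alternatives of FP3
fail (`K^22000 b_i ≤ p^(1/8-1/6) < 1`, `p b_i > p^(1/8)`), so `b_{i+1} < b_i/K`.  After `I = 124667` steps
(`124667/176000 ≥ 17/24 = 7/8 - 1/6`) `b_I ≤ p^(-7/8)`.  BI3 with `J = j_I` (an absolute constant):
`‖muv a‖^(4J²) ≤ p^(1/2-7/8)`, so `ε = 3/(32J²)`.  Hypotheses: hNB3 hOR3 hBI3 hFP3. -/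
def StEP3 : Prop := ∃ ε : ℝ, 0 < ε ∧ ∃ p₀ : ℕ, ∀ (p T : ℕ) [NeZero p] (th : ZMod p),
  p₀ ≤ p → p.Prime → 0 < T → th ^ T = 1 → (p : ℝ) ^ (1 / 6 : ℝ) ≤ orderOf th →
  ∀ a : ZMod p, a ≠ 0 → ‖muv p T th a‖ ≤ (p : ℝ) ^ (-ε)

/-- EQ3. See EQ (nothing changes but the exponent `1/6` of the orders).
Hypotheses: hNA3 hNB3 hNP3 hBI3 hFQ3 hEP3. -/
def StEQ3 : Prop := ∃ ε : ℝ, 0 < ε ∧ ∃ p₀ : ℕ, ∀ (p q T : ℕ) [NeZero p] [NeZero q]
  (th : ZMod (p * q)), p₀ ≤ p →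
  p.Prime → q.Prime → p < q → 0 < T → th ^ T = 1 →
  (p : ℝ) ^ (1 / 6 : ℝ) ≤ orderOf (ZMod.cast th : ZMod p) →
  (q : ℝ) ^ (1 / 6 : ℝ) ≤ orderOf (ZMod.cast th : ZMod q) →
  ∀ a : ZMod (p * q), IsUnit a → ‖muv (p * q) T th a‖ ≤ (q : ℝ) ^ (-ε)

/-- MC3. See MC.  Hypotheses: none. -/
def StMC3 : Prop := ∀ (p q T x : ℕ) [NeZero p] [NeZero q] (th : ZMod (p * q)),
  muv (p * q) T th ((q * x : ℕ) : ZMod (p * q)) = muv p T (ZMod.cast th : ZMod p) ((x : ℕ) : ZMod p) ∧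
  muv (p * q) T th ((p * x : ℕ) : ZMod (p * q)) = muv q T (ZMod.cast th : ZMod q) ((x : ℕ) : ZMod q)

/-- PF3. Orthogonality, see PF: `prbv = n⁻¹ ∑_a ψ(a) ∏_i muv(a c_i)`.  Hypotheses: none. -/
def StPF3 : Prop := ∀ (n T k : ℕ) [NeZero n] (th : ZMod n) (c : Fin k → ZMod n), 0 < T →
  |prbv n T k th c - 1 / n| ≤ (∑ a : ZMod n, if a = 0 then 0 else ∏ i, ‖muv n T th (a * c i)‖) / n

/-- PA3. See PA: every factor is at most `p^(-ε)` as `a c_i ≠ 0`.  Hypotheses: hPF3 hEP3. -/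
def StPA3 : Prop := ∃ k₀ p₀ : ℕ, ∀ (p T k : ℕ) [NeZero p] (th : ZMod p) (c : Fin k → ZMod p),
  k₀ ≤ k → p₀ ≤ p → p.Prime → 0 < T → th ^ T = 1 → (p : ℝ) ^ (1 / 6 : ℝ) ≤ orderOf th →
  (∀ i, c i ≠ 0) → |prbv p T k th c - 1 / p| ≤ 1 / (p : ℝ) ^ 2

/-- PB3. See PB: `a = q x` with `1 ≤ x < p`: `a c_i = q (x c_i)`, and `x c_i` is nonzero modulo `p`; the same for
`a = p x`; if `a` is a unit, so is `a c_i`.  Hypotheses: hPF3 hMC3 hEP3 hEQ3. -/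
def StPB3 : Prop := ∃ k₀ p₀ : ℕ, ∀ (p q T k : ℕ) [NeZero p] [NeZero q] (th : ZMod (p * q))
  (c : Fin k → ZMod (p * q)), k₀ ≤ k → p₀ ≤ p →
  p.Prime → q.Prime → p < q → 0 < T → th ^ T = 1 →
  (p : ℝ) ^ (1 / 6 : ℝ) ≤ orderOf (ZMod.cast th : ZMod p) →
  (q : ℝ) ^ (1 / 6 : ℝ) ≤ orderOf (ZMod.cast th : ZMod q) →
  (∀ i, IsUnit (c i)) →
  prbv (p * q) T k th c ≤ 1 / ((p : ℝ) * q) * (1 + 3 / p)

end Pool.Agent.Helper36.SPR
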