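import Pool.Agent.Helper72.SPR.M_NA3
import Pool.Agent.Helper4.SPR.M_NB3
import Pool.Agent.Helper95.SPR.M_NP3
import Pool.Agent.Helper67.SPR.M_OR3
import Pool.Agent.Helper79.SPR.M_PR3
import Pool.Agent.Helper29.SPR.M_PS3
import Pool.Agent.Helper84.SPR.M_BI3
import Pool.Agent.Helper94.SPR.M_AE3
import Pool.Agent.Helper28.SPR.M_ST3
import Pool.Agent.Helper92.SPR.M_FP3
import Pool.Agent.Helper41.SPR.M_FQ3
import Pool.Agent.Helper85.SPR.M_EP3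
import Pool.Agent.Helper4.SPR.M_EQ3
import Pool.Agent.Helper65.SPR.M_MC3
import Pool.Agent.Helper99.SPR.M_PF3
import Pool.Agent.Helper7.SPR.M_PA3
import Pool.Agent.Helper85.SPR.M_PB3
import Pool.Agent.Helper2.SPR.M_CE
import Pool.Agent.Helper2.SPR.M_IT
import Pool.Agent.Helper79.SPR.M_PCM
import Pool.Agent.Helper96.SPR.M_PCF
import Pool.Agent.Helper95.SPR.M_PCG
import Pool.Agent.Helper28.SPR.M_PCA
import Pool.Agent.Helper86.SPR.M_TR4
import Pool.Agent.Helper29.SPR.M_BTD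
import Pool.Agent.Helper98.SPR.M_BTI
import Pool.Agent.Helper80.SPR.M_NTS
import Pool.Agent.Helper15.SPR.M_NTB
import Pool.Agent.Helper47.SPR.M_NTF
import Pool.Agent.Helper36.SPR.All
import Pool.Agent.Helper36.SPR.M_FIN5

/-!
# Project SPR3: assembly
-/

set_option autoImplicit false

namespace Pool.Agent.Helper36.SPR

theorem aNA3 : StNA3 := Pool.Agent.Helper72.SPR.hNA3

theorem aNB3 : StNB3 := Pool.Agent.Helper4.SPR.hNB3 aNA3

theorem aNP3 : StNP3 := Pool.Agent.Helper95.SPR.hNP3 aNA3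

theorem aOR3 : StOR3 := Pool.Agent.Helper67.SPR.hOR3

theorem aPR3 : StPR3 := Pool.Agent.Helper79.SPR.hPR3 aNA3

theorem aPS3 : StPS3 := Pool.Agent.Helper29.SPR.hPS3 aNA3 aNB3 aPR3

theorem aBI3 : StBI3 := Pool.Agent.Helper84.SPR.hBI3 aNB3 aPR3

theorem aAE3 : StAE3 := Pool.Agent.Helper94.SPR.hAE3 aNB3 aNA3

theorem aST3 : StST3 := Pool.Agent.Helper28.SPR.hST3 aNA3 aNB3 aPS3 aBA aBM aAE3 aLV

theorem aFP3 : StFP3 := Pool.Agent.Helper92.SPR.hFP3 aNB3 aST3 aSP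

theorem aFQ3 : StFQ3 := Pool.Agent.Helper41.SPR.hFQ3 aNA3 aNB3 aNP3 aST3 aSQ

theorem aEP3 : StEP3 := Pool.Agent.Helper85.SPR.hEP3 aNB3 aOR3 aBI3 aFP3

theorem aEQ3 : StEQ3 := Pool.Agent.Helper4.SPR.hEQ3 aNA3 aNB3 aNP3 aBI3 aFQ3 aEP3

theorem aMC3 : StMC3 := Pool.Agent.Helper65.SPR.hMC3

theorem aPF3 : StPF3 := Pool.Agent.Helper99.SPR.hPF3

theorem aPA3 : StPA3 := Pool.Agent.Helper7.SPR.hPA3 aPF3 aEP3

theorem aPB3 : StPB3 := Pool.Agent.Helper85.SPR.hPB3 aPF3 aMC3 aEP3 aEQ3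

theorem aCE : StCE := Pool.Agent.Helper2.SPR.hCE aPA3 aPB3

theorem aIT : StIT := Pool.Agent.Helper2.SPR.hIT aCE

theorem aPCM : StPCM := Pool.Agent.Helper79.SPR.hPCM

theorem aPCF : StPCF := Pool.Agent.Helper96.SPR.hPCF

theorem aPCG : StPCG := Pool.Agent.Helper95.SPR.hPCG aPCM aPCF

theorem aPCA : StPCA := Pool.Agent.Helper28.SPR.hPCA

theorem aTR4 : StTR4 := Pool.Agent.Helper86.SPR.hTR4

theorem aBTD : StBTD := Pool.Agent.Helper29.SPR.hBTD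

theorem aBTI : StBTI := Pool.Agent.Helper98.SPR.hBTI aBTD

theorem aNTS : StNTS := Pool.Agent.Helper80.SPR.hNTS aBTI

theorem aNTB : StNTB := Pool.Agent.Helper15.SPR.hNTB aNTS aQS

theorem aNTF : StNTF := Pool.Agent.Helper47.SPR.hNTF aNTB

theorem aFIN5 : StFIN5 := hFIN5 aIT aPCG aPCA aTR4 aNTF aBN

end Pool.Agent.Helper36.SPR
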