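import Pool.Agent.Helper36.SPR.St
import Pool.Agent.Helper36.SPR.St2
import Pool.Agent.Helper36.SPR.St3
import Pool.Agent.Helper36.SPR.M_FIN2

/-!
# Project SPR, module FIN3
-/

set_option autoImplicit false

namespace Pool.Agent.Helper36.SPR

open Finset Filter

theorem hFIN3 (hPA : StPA2) (hPB : StPB2) (hND : StND2) (hCH : StCH3) (hTR : StTR2)
    (hBN : StBN) : StFIN3 := by
  obtain ⟨k₁, p₁, H1⟩ := hPA
  obtain ⟨k₂, p₂, H2⟩ := hPB
  refine ⟨max k₁ k₂, fun k hk ε hε hε1 => ?_⟩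
  have hk1 : k₁ ≤ k := le_trans (le_max_left _ _) hk
  have hk2 : k₂ ≤ k := le_trans (le_max_right _ _) hk
  set y : ℕ := max p₁ p₂ with hy
  have hy1 : p₁ ≤ y := le_max_left _ _
  have hy2 : p₂ ≤ y := le_max_right _ _
  obtain ⟨C, hC⟩ := hND y
  obtain ⟨N₁, hN₁⟩ := fin2_z
  obtain ⟨N₂, hN₂⟩ := fin_growth k 0
  have hll := (Filter.tendsto_atTop.1 fin2_loglog (2 * (|C| + 4) / ε)).and (eventually_ge_atTop 1)
  obtain ⟨N₃, hN₃⟩ := Filter.eventually_atTop.1 hll
  refine ⟨max (max N₁ N₂) (max N₃ 1), fun N hN => ?_⟩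
  have hNa : N₁ ≤ N := le_trans (le_trans (le_max_left _ _) (le_max_left _ _)) hN
  have hNb : N₂ ≤ N := le_trans (le_trans (le_max_right _ _) (le_max_left _ _)) hN
  have hNc : N₃ ≤ N := le_trans (le_trans (le_max_left _ _) (le_max_right _ _)) hN
  have hN1 : 1 ≤ N := le_trans (le_trans (le_max_right _ _) (le_max_right _ _)) hN
  set L : ℝ := Real.log (Real.log (N : ℝ)) with hL
  have hLC : 2 * (|C| + 4) / ε ≤ L := (hN₃ N hNc).1
  rw [div_le_iff₀ hε] at hLC
  have hCa : C ≤ |C| := le_abs_self C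
  have hC0 : 0 ≤ |C| := abs_nonneg C
  have hL0 : 0 < L := by
    by_contra h
    push Not at h
    nlinarith
  have hLC1 : 2 * (|C| + 4) ≤ L := by nlinarith
  obtain ⟨z, hz3, hz4, hz⟩ := hN₁ N hNa
  obtain ⟨P, hP, hs⟩ := hC z hz3
  set s : ℝ := ∑ p ∈ P, (1 : ℝ) / p with hsd
  have hsL : L - (|C| + 3) ≤ s := by linarith
  have hsL2 : L / 2 ≤ s := by linarith
  have hs0 : 0 < s := by linarith
  set lam : ℝ := s - 1 - (1 - ε) * L with hlam
  have hlam1 : ε / 2 * s ≤ lam := by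
    have e1 : (1 - ε / 2) * (L - (|C| + 3)) ≤ (1 - ε / 2) * s :=
      mul_le_mul_of_nonneg_left hsL (by linarith)
    have e2 : (1 - ε / 2) * (|C| + 3) ≤ |C| + 3 := by nlinarith
    nlinarith
  have hlam0 : 0 < lam := lt_of_lt_of_le (by positivity) hlam1
  have hz2N : ∀ p, p ≤ z → p ^ 4 ≤ N := fun p hp => le_trans (Nat.pow_le_pow_left hp 4) hz4
  have hch := hCH N k lam P (by omega) hlam0 (fun p hp => (hP p hp).1)
    (fun p hp => by
      have hpp := (hP p hp).1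
      have : NeZero p := ⟨hpp.ne_zero⟩
      refine H1 p N k hk1 (le_trans hy1 (hP p hp).2.1) hpp ?_ (hP p hp).2.2.2.2
      exact le_trans (Nat.pow_le_pow_right hpp.pos (by norm_num)) (hz2N p (hP p hp).2.2.1))
    (fun p hp q hq hpq => by
      have : NeZero p := ⟨(hP p hp).1.ne_zero⟩
      have : NeZero q := ⟨(hP q hq).1.ne_zero⟩
      exact H2 p q N k hk2 (le_trans hy2 (hP p hp).2.1) (hP p hp).1 (hP q hq).1 hpq
        (hz2N q (hP q hq).2.2.1) (hP p hp).2.2.2.2 (hP q hq).2.2.2.2)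
  set R : ℕ := ⌊(1 - ε) * L⌋₊ with hR
  have hRL : (R : ℝ) ≤ (1 - ε) * L := Nat.floor_le (mul_nonneg (by linarith) hL0.le)
  have hθ : 12 * s / lam ^ 2 ≤ 100 / (ε ^ 2 * L) := by
    have e1 : (ε / 2 * s) ^ 2 ≤ lam ^ 2 := pow_le_pow_left₀ (by positivity) hlam1 2
    rw [div_le_div_iff₀ (by positivity) (by positivity)]
    have e2 : 12 * s * (ε ^ 2 * L) ≤ 12 * s * (ε ^ 2 * (2 * s)) := by
      have : L ≤ 2 * s := by linarith
      gcongr
    nlinarith
  have hmon : ((((univ : Finset (Fin k → Fin N)).filter (fun v =>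
      (P.filter (fun p => 1 + ∑ i, (2 : ZMod p) ^ (v i : ℕ) = 0)).card ≤ R)).card : ℝ)) ≤
      (((univ : Finset (Fin k → Fin N)).filter (fun v =>
    ((P.filter (fun p => 1 + ∑ i, (2 : ZMod p) ^ (v i : ℕ) = 0)).card : ℝ)
      ≤ (∑ p ∈ P, (1 : ℝ) / p) - 1 - lam)).card : ℝ) := by
    rw [Nat.cast_le]
    refine Finset.card_le_card ?_
    intro v hv
    rw [Finset.mem_filter] at hv ⊢
    refine ⟨hv.1, ?_⟩
    have e3 : ((P.filter (fun p => 1 + ∑ i, (2 : ZMod p) ^ (v i : ℕ) = 0)).card : ℝ) ≤ R := by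
      exact_mod_cast hv.2
    have e4 : (∑ p ∈ P, (1 : ℝ) / p) - 1 - lam = (1 - ε) * L := by
      rw [hlam]; ring
    rw [e4]
    linarith
  have hθ2 : ((((univ : Finset (Fin k → Fin N)).filter (fun v =>
      (P.filter (fun p => 1 + ∑ i, (2 : ZMod p) ^ (v i : ℕ) = 0)).card ≤ R)).card : ℝ))
      ≤ 100 / (ε ^ 2 * L) * (N : ℝ) ^ k :=
    hmon.trans (hch.trans (mul_le_mul_of_nonneg_right hθ (by positivity)))
  have hg := hN₂ N hNb
  simp only [Nat.cast_zero, add_zero] at hg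
  have htr : (k.factorial : ℝ) * ((((Ico 1 N).powersetCard k).filter (fun D =>
      (P.filter (fun p => p ∣ 1 + ∑ i ∈ D, 2 ^ i)).card ≤ R)).card : ℝ) ≤
      ((((univ : Finset (Fin k → Fin N)).filter (fun v =>
      (P.filter (fun p => 1 + ∑ i, (2 : ZMod p) ^ (v i : ℕ) = 0)).card ≤ R)).card : ℝ)) := by
    exact_mod_cast hTR k R N P
  have hbad := hBN k N (fun m => m.primeFactors.card ≤ R) hN1
  have htot := hBN k N (fun _ => True) hN1
  have hsub : ((((Ico 1 N).powersetCard k).filter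
      (fun D => (1 + ∑ i ∈ D, 2 ^ i).primeFactors.card ≤ R)).card : ℝ) ≤
      ((((Ico 1 N).powersetCard k).filter (fun D =>
        (P.filter (fun p => p ∣ 1 + ∑ i ∈ D, 2 ^ i)).card ≤ R)).card : ℝ) := by
    norm_cast
    refine Finset.card_le_card ?_
    intro D hD
    rw [Finset.mem_filter] at hD ⊢
    refine ⟨hD.1, le_trans (Finset.card_le_card ?_) hD.2⟩
    intro p hp
    rw [Finset.mem_filter] at hp
    exact Nat.mem_primeFactors.2 ⟨(hP p hp.1).1, hp.2, by omega⟩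
  have htot2 : ((range (2 ^ N)).filter (fun m => Odd m ∧ (Nat.digits 2 m).sum = k + 1)).card
      = (N - 1).choose k := by
    have e : (range (2 ^ N)).filter (fun m => Odd m ∧ (Nat.digits 2 m).sum = k + 1)
        = (range (2 ^ N)).filter (fun m => Odd m ∧ (Nat.digits 2 m).sum = k + 1 ∧ True) :=
      Finset.filter_congr (fun m _ => by tauto)
    rw [e, htot, Finset.filter_true_of_mem (fun _ _ => trivial), Finset.card_powersetCard,
      Nat.card_Ico]
  have hdesc : ((N - k : ℕ) : ℝ) ^ k ≤ (k.factorial : ℝ) * ((N - 1).choose k : ℝ) := by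
    have h := Nat.pow_sub_le_descFactorial (N - 1) k
    rw [Nat.descFactorial_eq_factorial_mul_choose, Nat.sub_add_cancel hN1] at h
    exact_mod_cast h
  rw [htot2, hbad]
  have hk0 : (0 : ℝ) < k.factorial := by exact_mod_cast Nat.factorial_pos k
  have h4L : 0 ≤ 100 / (ε ^ 2 * L) := by positivity
  have hmain : (k.factorial : ℝ) * ((((Ico 1 N).powersetCard k).filter
      (fun D => (1 + ∑ i ∈ D, 2 ^ i).primeFactors.card ≤ R)).card : ℝ)
      ≤ (k.factorial : ℝ) * (200 / (ε ^ 2 * L) * ((N - 1).choose k : ℝ)) := by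
    calc _ ≤ (k.factorial : ℝ) * ((((Ico 1 N).powersetCard k).filter (fun D =>
        (P.filter (fun p => p ∣ 1 + ∑ i ∈ D, 2 ^ i)).card ≤ R)).card : ℝ) :=
          mul_le_mul_of_nonneg_left hsub hk0.le
      _ ≤ 100 / (ε ^ 2 * L) * (N : ℝ) ^ k := htr.trans hθ2
      _ ≤ 100 / (ε ^ 2 * L) * (2 * ((N - k : ℕ) : ℝ) ^ k) := mul_le_mul_of_nonneg_left hg h4L
      _ ≤ 100 / (ε ^ 2 * L) * (2 * ((k.factorial : ℝ) * ((N - 1).choose k : ℝ))) := by
          refine mul_le_mul_of_nonneg_left ?_ h4L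
          linarith
      _ = (k.factorial : ℝ) * (200 / (ε ^ 2 * L) * ((N - 1).choose k : ℝ)) := by ring
  exact le_of_mul_le_mul_left hmain hk0

end Pool.Agent.Helper36.SPR
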