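import Mathlib
import Pool.Agent.Helper36.SPR.St4

/-!
# Project SPR3 (MP_343216_nt): statements, part 2 (blocks of primes and the final theorem)

THEOREM (`StFIN5`): there are `k₀` and `c > 0` such that for all `k ≥ k₀` and all large `N` at most
`C(N-1,k) / (log N)^c` of the `C(N-1,k)` odd integers below `2^N` with exactly `k+1` binary ones are
prime.
-/

set_option autoImplicit false

namespace Pool.Agent.Helper36.SPR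

open Finset

/-- number of the primes `p ∈ B` which divide `1 + ∑ 2^{v_i}` -/
def Xb (k : ℕ) (B : Finset ℕ) (v : Fin k → ℕ) : ℕ :=
  (B.filter (fun p => p ∣ 1 + ∑ i, 2 ^ (v i))).card

/-- the test function of a block `B` -/
noncomputable def fb (k : ℕ) (B : Finset ℕ) (v : Fin k → ℕ) : ℝ :=
  (1 - (Xb k B v : ℝ) / (∑ p ∈ B, (1 : ℝ) / p)) ^ 2

/-- average over `v ∈ [0,T)^k` -/
noncomputable def Av (T k : ℕ) (F : (Fin k → ℕ) → ℝ) : ℝ :=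
  (∑ v : Fin k → Fin T, F (fun i => (v i : ℕ))) / (T : ℝ) ^ k

/-- product of the `p - 1` over the blocks before `j` -/
def Wb (B : ℕ → Finset ℕ) (j : ℕ) : ℕ := ∏ i ∈ range j, ∏ p ∈ B i, (p - 1)

/-- product of the test functions of the first `J` blocks -/
noncomputable def Gb (k : ℕ) (B : ℕ → Finset ℕ) (J : ℕ) (v : Fin k → ℕ) : ℝ :=
  ∏ j ∈ range J, fb k (B j) v

/-- combinations of periodic functions with values in `[0,1]`: periods at most `T` and dividing `W`,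
sum of the absolute values of the coefficients at most `C` -/
def PC (k W T : ℕ) (C : ℝ) (F : (Fin k → ℕ) → ℝ) : Prop :=
  ∃ (m : ℕ) (c : Fin m → ℝ) (g : Fin m → (Fin k → ℕ) → ℝ) (t : Fin m → ℕ),
    (∀ l, 0 < t l ∧ t l ≤ T ∧ t l ∣ W ∧ (∀ v, 0 ≤ g l v ∧ g l v ≤ 1) ∧
      ∀ v v' : Fin k → ℕ, (∀ i, v i ≡ v' i [MOD t l]) → g l v = g l v') ∧
    ∑ l, |c l| ≤ C ∧ ∀ v, F v = ∑ l, c l * g l v

/-- the part of `n` composed of primes `≤ y` -/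
def Sm (y n : ℕ) : ℕ := ∏ l ∈ n.primeFactors.filter (fun l => l ≤ y), l ^ (n.factorization l)

/-- CE. Conditional expectation of a block, the residues modulo `W` being fixed.  For `p ∈ B` put
`th = 2^W`, `c_i = 2^{s₀ i}` in `ZMod p`: `p ∣ 1 + ∑ 2^{s₀ i + W u_i}` iff `1 + ∑ c_i th^{u_i} = 0`, `th^V = 1`
(Fermat, `(p-1) ∣ V`); PA3: the probability is in `[1/p - 1/p², 1/p + 1/p²]`.  For `p < q` in `B` the same
modulo `pq` (both divide iff `pq` divides; `th^V = 1` modulo `pq` by the Chinese remainder theorem);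
PB3: at most `(1/pq)(1 + 3/p)`.  With `s = ∑ 1/p ≥ 4` and all `p ≥ y₀ ≥ 100`:
`E X ≥ s (1 - 1/y₀)`, `E X² = ∑_p + 2 ∑_{p<q} ≤ s (1 + 1/y₀) + s² (1 + 3/y₀)`, so
`E (1 - X/s)² ≤ 5/y₀ + (1 + 1/y₀)/s ≤ 1/2`.  Hypotheses: hPA3 hPB3. -/
def StCE : Prop := ∃ k₀ y₀ : ℕ, ∀ (k W V : ℕ) (B : Finset ℕ) (s₀ : Fin k → ℕ), k₀ ≤ k → 0 < V →
  (∀ p ∈ B, p.Prime ∧ y₀ ≤ p ∧ (p - 1) ∣ V ∧ (p : ℝ) ^ (1 / 6 : ℝ) ≤ orderOf ((2 : ZMod p) ^ W)) →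
  4 ≤ ∑ p ∈ B, (1 : ℝ) / p →
  Av V k (fun u => fb k B (fun i => s₀ i + W * u i)) ≤ 1 / 2

/-- IT. Iteration.  Take `y₀ ≥ 3`.  Induction on `J`: `Wb (J+1) = W V`, `W = Wb J`, `V = ∏_{p ∈ B J} (p-1)`.
Every `v < W V` is uniquely `s + W u`, `s < W`, `u < V` (coordinatewise).  For `p ∈ B i`, `i < J`, `(p-1) ∣ W`, so
`2^{s + W u} = 2^s` modulo `p` and `Gb J (s + W u) = Gb J s ≥ 0`.  So
`Av_{WV} Gb (J+1) = W^{-k} ∑_s Gb J s · Av_V (u ↦ fb (s + W u)) ≤ (1/2) Av_W Gb J`.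
Hypotheses: hCE. -/
def StIT : Prop := ∃ k₀ y₀ : ℕ, ∀ (k J : ℕ) (B : ℕ → Finset ℕ), k₀ ≤ k →
  (∀ j < J, (∀ p ∈ B j, p.Prime ∧ y₀ ≤ p ∧
      (p : ℝ) ^ (1 / 6 : ℝ) ≤ orderOf ((2 : ZMod p) ^ (Wb B j))) ∧
    4 ≤ ∑ p ∈ B j, (1 : ℝ) / p) →
  Av (Wb B J) k (Gb k B J) ≤ (1 / 2 : ℝ) ^ J

/-- PCM. Products of combinations (indices `finProdFinEquiv`; period `t l * t' l'`).
Hypotheses: none. -/
def StPCM : Prop := ∀ (k W T W' T' : ℕ) (C C' : ℝ) (F F' : (Fin k → ℕ) → ℝ),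
  PC k W T C F → PC k W' T' C' F' → PC k (W * W') (T * T') (C * C') (fun v => F v * F' v)

/-- PCF. The test function of a block: `X = ∑_p 1_p`, `(1 - X/s)² = 1 - (2/s) ∑_p 1_p +
(1/s²) ∑_{p,q} 1_p 1_q` with `1_p(v) = 1` if `p ∣ 1 + ∑ 2^{v_i}` and `0` otherwise, periodic modulo `p - 1`
(Fermat); `1_p 1_q` has the period `(p-1)(q-1)` if `p ≠ q` and `p - 1` if `p = q`, a divisor of `∏ (p-1)`.
Sum of the absolute values: `(1 + |B|/s)² ≤ (1 + |B|)² ≤ M²` as `B ⊆ [3,M]` and `s ≥ 1`.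
(It is convenient to prove closure of `PC k W T` under sums and multiples first, or to use the index
type `Option B × Option B` and an equivalence with `Fin m`.)  Hypotheses: none. -/
def StPCF : Prop := ∀ (k M : ℕ) (B : Finset ℕ), (∀ p ∈ B, p.Prime ∧ 2 < p ∧ p ≤ M) →
  1 ≤ ∑ p ∈ B, (1 : ℝ) / p → PC k (∏ p ∈ B, (p - 1)) (M ^ 2) ((M : ℝ) ^ 2) (fb k B)

/-- PCG. Induction on `J` from PCM and PCF (`J = 0`: one constant function, period `1`).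
Hypotheses: hPCM hPCF. -/
def StPCG : Prop := ∀ (k J : ℕ) (B : ℕ → Finset ℕ) (M : ℕ → ℕ),
  (∀ j < J, (∀ p ∈ B j, p.Prime ∧ 2 < p ∧ p ≤ M j) ∧ 1 ≤ ∑ p ∈ B j, (1 : ℝ) / p) →
  PC k (Wb B J) (∏ j ∈ range J, M j ^ 2) (∏ j ∈ range J, (M j : ℝ) ^ 2) (Gb k B J)

/-- PCA. Averages of periodic functions.  For `g` with values in `[0,1]` and period `t ∣ W`:
`Av_W g = Av_t g`.  Let `a_r` be the proportion of the `i < N` with `i ≡ r` modulo `t`: `|a_r - 1/t| ≤ 1/N`,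
`Av_N g = ∑_r g(r) ∏ a_{r_i}` (`r` over `[0,t)^k`) and telescoping gives
`|Av_N g - Av_t g| ≤ ∑_r |∏ a_{r_i} - ∏ 1/t| ≤ k t/N`.  Sum over the combination.
Hypotheses: none. -/
def StPCA : Prop := ∀ (k W T N : ℕ) (C : ℝ) (F : (Fin k → ℕ) → ℝ), 0 < W → 0 < N → PC k W T C F →
  |Av N k F - Av W k F| ≤ k * C * T / N

/-- TR4. As TR2 with an arbitrary property (landed proof of TR2:
`Pool/Agent/Helper75/SPR/M_TR2.lean`): every `k`-subset `D` of `[1,N)` is the image of `k!`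
injective maps `v : Fin k → Fin N`, and `∑_{i∈D} 2^i = ∑_i 2^{v i}`.  Hypotheses: none. -/
def StTR4 : Prop := ∀ (k N : ℕ) (Q : ℕ → Prop) [DecidablePred Q],
  k.factorial * (((Ico 1 N).powersetCard k).filter (fun D => Q (1 + ∑ i ∈ D, 2 ^ i))).card ≤
  ((univ : Finset (Fin k → Fin N)).filter (fun v => Q (1 + ∑ i, 2 ^ (v i : ℕ)))).card

/-- BTD. Brun-Titchmarsh for prime power moduli `D = l^j`, `D² ≤ z`.  Selberg's sieve for the numbers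
`D m + 1 ∈ (z, 2z]`: the library has Selberg's weights `Pool.Agent.Helper60.GP.StSel` (proved in
`Pool/Agent/*/GP`; or `Pool.Agent.Helper23.MV.StSel`): with `g p = 1/p`, `Q` = the primes `≤ ξ = z^(1/8)` different from `l`:
`#{..} ≤ ∑_m (∑_{d ∣ Dm+1} lam d)² + ξ ≤ (z/D) / G + O(ξ²) + ξ`, `G = ∑_{d ≤ ξ, (d,l)=1} μ²(d)/φ(d)
≥ (1/2) ∑_{d ≤ ξ} μ²(d)/φ(d) ≥ (1/2) log ξ`.  Small `z`: trivial bound `z/D + 1`.  Any other proof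
(Brun's sieve etc.) is fine.  Hypotheses: none. -/
def StBTD : Prop := ∃ C : ℝ, 0 < C ∧ ∀ z l j : ℕ, 2 ≤ z → l.Prime → 1 ≤ j → (l ^ j) ^ 2 ≤ z →
  (((Ioc z (2 * z)).filter (fun p => p.Prime ∧ p ≡ 1 [MOD l ^ j])).card : ℝ)
    ≤ C * z / ((l : ℝ) ^ j * Real.log z)

/-- BTI. Dyadic summation: `(x, x^A]` is covered by `(2^i x, 2^(i+1) x]`, `2^i x < x^A`; each part
contributes at most `C / (D log (2^i x))`, and `∑_i 1/(i log 2 + log x) ≤ C' (1 + log A)`.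
Hypotheses: hBTD. -/
def StBTI : Prop := ∃ C : ℝ, 0 < C ∧ ∀ x A l j : ℕ, 2 ≤ x → 1 ≤ A → l.Prime → 1 ≤ j →
  (l ^ j) ^ 2 ≤ x →
  ∑ p ∈ (Ioc x (x ^ A)).filter (fun p => p.Prime ∧ p ≡ 1 [MOD l ^ j]), (1 : ℝ) / p
    ≤ C * (1 + Real.log A) / (l : ℝ) ^ j

/-- NTS. Primes `p` for which `p - 1` has a large smooth part.  `x = y^(C₁)`, `I = (x, x^A]`:
`∑ 1/p ≤ ∑_{p∈I} (1/p) 6 log Sm(y,p-1) / log x`, `log Sm(y,p-1) = ∑_{l ≤ y, l^j ∣ p-1, j ≥ 1} log l`.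
For `l^j ≤ √x` use BTI: in total at most `C (1+log A) ∑_{l ≤ y} log l/(l-1) ≤ C (1+log A)(log y + C')`
(Mertens' first theorem, e.g. `Pool.Agent.Helper60.GP.StM1`, `Pool.Agent.Helper13.Dn.mertens_upper`).
For `l^j > √x`: trivially `∑_{p ∈ I, p ≡ 1 (D)} 1/p ≤ (1/D)(1 + A log x)`, and
`∑_{l ≤ y} log l ∑_{l^j > √x} l^(-j) ≤ y log y · 2/√x`, so the contribution is at most `1` for `C₁ ≥ 4` and large
`y`.  Altogether at most `(6/(C₁ log y)) (C (1+log A)(log y + C') + 1) ≤ C'' (1+log A)/C₁`.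
Hypotheses: hBTI. -/
def StNTS : Prop := ∃ C : ℝ, 0 < C ∧ ∀ A C₁ : ℕ, 1 ≤ A → 4 ≤ C₁ → ∃ y₀ : ℕ, ∀ y : ℕ, y₀ ≤ y →
  ∑ p ∈ (Ioc (y ^ C₁) (y ^ (C₁ * A)) : Finset ℕ).filter
    (fun p : ℕ => p.Prime ∧ (p : ℝ) ^ (1 / 6 : ℝ) < (Sm y (p - 1) : ℝ)), (1 : ℝ) / (p : ℝ)
    ≤ C * (1 + Real.log A) / C₁

/-- NTB. One block.  Mertens (two sided: `Pool.Agent.Helper15.AB.StMT`, proved as
`Pool.Agent.Helper15.AB.hMT`): the sum of `1/p` over all primes of `(y^(C₁), y^(C₁ A)]` is at least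
`log A - 2 C_M`; remove the primes with order of `2` smaller than `p^(1/3)` (at most `C_Q` by QS, plus `1/2` for `p = 2`)
and those with large smooth part (NTS, at most `1` for `C₁ ≥ C (1 + log A)`).  Choose `A` with
`log A ≥ 2 C_M + C_Q + 6`, then `C₁`.  Hypotheses: hNTS hQS. -/
def StNTB : Prop := ∃ A C₁ : ℕ, 2 ≤ A ∧ 4 ≤ C₁ ∧ ∃ y₀ : ℕ, ∀ y : ℕ, y₀ ≤ y → ∃ B : Finset ℕ,
  (∀ p ∈ B, p.Prime ∧ y ^ C₁ < p ∧ p ≤ y ^ (C₁ * A) ∧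
    (p : ℝ) ^ (1 / 3 : ℝ) ≤ orderOf (2 : ZMod p) ∧ (Sm y (p - 1) : ℝ) ≤ (p : ℝ) ^ (1 / 6 : ℝ)) ∧
  4 ≤ ∑ p ∈ B, (1 : ℝ) / p

/-- NTF. All blocks.  `R = C₁ A ≥ 8`, `y_0 = max(y₀, y₁, 3)`, `y_j = y_0^(R^j)`, `B j` from NTB for `y_j`,
`M j = y_(j+1) = y_j^R`.  All primes of the blocks before `j` are `≤ y_j`, so `Wb B j` has only prime
factors `≤ y_j` and `gcd(ord_p(2), Wb B j)`, a divisor of `p - 1`, divides `Sm y_j (p-1) ≤ p^(1/6)`;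
`orderOf (2^W) = ord / gcd(ord, W)` (`orderOf_pow`) `≥ p^(1/3 - 1/6)`.
`(∏_{j<J} y_(j+1))^8 ≤ y_0^(8 R^(J+1)) ≤ N` for `J = ⌊log(log N/(8 log y_0))/log R⌋ - 1`, which is at least
`c log log N`, `c = 1/(2 log R)`, for large `N`.  Hypotheses: hNTB. -/
def StNTF : Prop := ∀ y₁ : ℕ, ∃ c : ℝ, 0 < c ∧ ∃ N₀ : ℕ, ∀ N : ℕ, N₀ ≤ N →
  ∃ (J : ℕ) (B : ℕ → Finset ℕ) (M : ℕ → ℕ), c * Real.log (Real.log N) ≤ J ∧
    (∀ j < J, (∀ p ∈ B j, p.Prime ∧ y₁ ≤ p ∧ 2 < p ∧ p ≤ M j ∧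
        (p : ℝ) ^ (1 / 6 : ℝ) ≤ orderOf ((2 : ZMod p) ^ (Wb B j))) ∧
      4 ≤ ∑ p ∈ B j, (1 : ℝ) / p) ∧
    (∏ j ∈ range J, M j) ^ 8 ≤ N

/-- FIN5. IT, PCG, PCA, TR4, NTF, BN: with `P = ∏ M j`, `P^8 ≤ N`, all primes `m > P` have
`Xb = 0` for all blocks, so `Gb = 1`; `k! #{D : m(D) prime, > P} ≤ ∑_v Gb v = N^k Av_N Gb ≤
N^k (2^(-J) + k P^4/N)`.  Hypotheses: hIT hPCG hPCA hTR4 hNTF hBN. -/
def StFIN5 : Prop := ∃ k₀ : ℕ, ∃ c : ℝ, 0 < c ∧ ∀ k : ℕ, k₀ ≤ k → ∃ N₀ : ℕ, ∀ N : ℕ, N₀ ≤ N →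
  (((range (2 ^ N)).filter (fun m => m.Prime ∧ Odd m ∧ (Nat.digits 2 m).sum = k + 1)).card : ℝ)
    ≤ (((range (2 ^ N)).filter (fun m => Odd m ∧ (Nat.digits 2 m).sum = k + 1)).card : ℝ)
      / Real.log N ^ c

end Pool.Agent.Helper36.SPR
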